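import Mathlib

/-!
# Project EP (helper255), job SOFT: summation by parts
-/

set_option autoImplicit false

namespace Pool.Agent.Q153.EP

open Filter Topology Set

/-! ### The weights -/

/-- `(log x)^j x^(-τ)` -/
noncomputable def W (j : ℕ) (τ x : ℝ) : ℝ := Real.log x ^ j * Real.exp (-(τ * Real.log x))

theorem Wd (j : ℕ) (τ : ℝ) {x : ℝ} (hx : 0 < x) :
    HasDerivAt (W j τ) (j * W (j - 1) (τ + 1) x - τ * W j (τ + 1) x) x := by
  have h1 := Real.hasDerivAt_log hx.ne'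
  have h2 := (h1.pow j).mul ((h1.const_mul τ).neg.exp)
  have e1 : Real.exp (-((τ + 1) * Real.log x)) = Real.exp (-(τ * Real.log x)) * x⁻¹ := by
    have e2 : x⁻¹ = Real.exp (-Real.log x) := by rw [Real.exp_neg, Real.exp_log hx]
    rw [e2, ← Real.exp_add]
    congr 1
    ring
  have e3 : (j * W (j - 1) (τ + 1) x - τ * W j (τ + 1) x) =
      (j : ℝ) * Real.log x ^ (j - 1) * x⁻¹ * Real.exp (-(τ * Real.log x)) +
        Real.log x ^ j * (Real.exp (-(τ * Real.log x)) * -(τ * x⁻¹)) := by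
    unfold W
    rw [e1]
    ring
  rw [e3]
  exact h2

theorem Wb {i j : ℕ} (hij : i ≤ j) {τ n m x : ℝ} (hτ : 0 ≤ τ) (hn : 1 ≤ n) (hnx : n ≤ x) (hxm : x ≤ m) :
    |W i τ x| ≤ (1 + Real.log m) ^ j * Real.exp (-(τ * Real.log n)) := by
  have h0 : 0 ≤ Real.log n := Real.log_nonneg hn
  have h1 : Real.log n ≤ Real.log x := Real.log_le_log (by linarith) hnx
  have h2 : Real.log x ≤ Real.log m := Real.log_le_log (by linarith) hxm
  unfold W
  rw [abs_mul, abs_of_pos (Real.exp_pos _), abs_of_nonneg (pow_nonneg (by linarith) i)]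
  have h3 : Real.log x ^ i ≤ (1 + Real.log m) ^ j := by
    calc Real.log x ^ i ≤ (1 + Real.log m) ^ i := pow_le_pow_left₀ (by linarith) (by linarith) i
      _ ≤ (1 + Real.log m) ^ j := pow_le_pow_right₀ (by linarith) hij
  refine mul_le_mul h3 (Real.exp_le_exp.2 ?_) (Real.exp_pos _).le (pow_nonneg (by linarith) j)
  have := mul_le_mul_of_nonneg_left h1 hτ
  linarith

/-- bound for the first derivative -/
theorem Wd1 (j : ℕ) {τ n m x : ℝ} (hτ : 0 ≤ τ) (hn : 1 ≤ n) (hnx : n ≤ x) (hxm : x ≤ m) :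
    |j * W (j - 1) (τ + 1) x - τ * W j (τ + 1) x| ≤
      (j + τ) * ((1 + Real.log m) ^ j * Real.exp (-((τ + 1) * Real.log n))) := by
  have h1 := Wb (Nat.sub_le j 1) (τ := τ + 1) (by linarith) hn hnx hxm
  have h2 := Wb (le_refl j) (τ := τ + 1) (by linarith) hn hnx hxm
  calc |j * W (j - 1) (τ + 1) x - τ * W j (τ + 1) x| ≤ |j * W (j - 1) (τ + 1) x| + |τ * W j (τ + 1) x| :=
        abs_sub _ _
    _ = j * |W (j - 1) (τ + 1) x| + τ * |W j (τ + 1) x| := by
        rw [abs_mul, abs_mul, Nat.abs_cast, abs_of_nonneg hτ]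
    _ ≤ j * ((1 + Real.log m) ^ j * Real.exp (-((τ + 1) * Real.log n))) +
        τ * ((1 + Real.log m) ^ j * Real.exp (-((τ + 1) * Real.log n))) :=
        add_le_add (mul_le_mul_of_nonneg_left h1 (Nat.cast_nonneg _)) (mul_le_mul_of_nonneg_left h2 hτ)
    _ = _ := by ring

/-- first differences -/
theorem Wdiff1 (j : ℕ) {τ n m x y : ℝ} (hτ : 0 ≤ τ) (hn : 1 ≤ n) (hnx : n ≤ x) (hxy : x ≤ y) (hym : y ≤ m) :
    |W j τ y - W j τ x| ≤ (j + τ) * ((1 + Real.log m) ^ j * Real.exp (-((τ + 1) * Real.log n))) * (y - x) := by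
  have h := Convex.norm_image_sub_le_of_norm_hasDerivWithin_le (f := W j τ)
    (f' := fun t => j * W (j - 1) (τ + 1) t - τ * W j (τ + 1) t) (s := Icc n m) (x := x) (y := y)
    (C := (j + τ) * ((1 + Real.log m) ^ j * Real.exp (-((τ + 1) * Real.log n))))
    (fun t ht => (Wd j τ (by linarith [ht.1])).hasDerivWithinAt)
    (fun t ht => by rw [Real.norm_eq_abs]; exact Wd1 j hτ hn ht.1 ht.2) (convex_Icc _ _)
    ⟨hnx, by linarith⟩ ⟨by linarith, hym⟩
  rw [Real.norm_eq_abs, Real.norm_eq_abs, abs_of_nonneg (by linarith : (0 : ℝ) ≤ y - x)] at h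
  exact h

/-- second differences -/
theorem Wdiff2 (j : ℕ) {τ n : ℝ} (hτ : 0 ≤ τ) (hn : 1 ≤ n) :
    |W j τ n - 2 * W j τ (n + 1) + W j τ (n + 2)| ≤
      (j + τ + 1) ^ 2 * ((1 + Real.log (n + 2)) ^ j * Real.exp (-((τ + 2) * Real.log n))) := by
  -- derivative of x ↦ W (x + 1) - W x
  have hsh : ∀ t : ℝ, 0 < t → HasDerivAt (fun t => W j τ (t + 1) - W j τ t)
      ((j * W (j - 1) (τ + 1) (t + 1) - τ * W j (τ + 1) (t + 1)) - (j * W (j - 1) (τ + 1) t - τ * W j (τ + 1) t)) t := by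
    intro t ht
    have h1 : HasDerivAt (fun t => W j τ (t + 1)) (j * W (j - 1) (τ + 1) (t + 1) - τ * W j (τ + 1) (t + 1)) t := by
      have h2 := Wd j τ (x := t + 1) (by linarith)
      exact h2.comp_add_const t 1
    exact h1.sub (Wd j τ ht)
  set E : ℝ := (1 + Real.log (n + 2)) ^ j * Real.exp (-((τ + 2) * Real.log n)) with hE
  have hlog : 0 ≤ Real.log (n + 2) := Real.log_nonneg (by linarith)
  have hE0 : 0 ≤ E := by positivity
  have hb : ∀ t ∈ Icc n (n + 1),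
      |(j * W (j - 1) (τ + 1) (t + 1) - τ * W j (τ + 1) (t + 1)) - (j * W (j - 1) (τ + 1) t - τ * W j (τ + 1) t)| ≤
        (j + τ + 1) ^ 2 * E := by
    intro t ht
    have a1 : |W (j - 1) (τ + 1) (t + 1) - W (j - 1) (τ + 1) t| ≤ (j + τ + 1) * E := by
      have h1 := Wdiff1 (j - 1) (τ := τ + 1) (n := n) (m := n + 2) (x := t) (y := t + 1) (by linarith) hn ht.1
        (by linarith) (by linarith [ht.2])
      refine h1.trans ?_
      have e1 : τ + 1 + 1 = τ + 2 := by ring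
      rw [add_sub_cancel_left, mul_one, e1]
      have h2 : ((j - 1 : ℕ) : ℝ) ≤ j := by exact_mod_cast Nat.sub_le j 1
      have h3 : (1 + Real.log (n + 2)) ^ (j - 1) ≤ (1 + Real.log (n + 2)) ^ j :=
        pow_le_pow_right₀ (by linarith) (Nat.sub_le j 1)
      refine mul_le_mul (by linarith) (mul_le_mul_of_nonneg_right h3 (Real.exp_pos _).le) (by positivity) (by positivity)
    have a2 : |W j (τ + 1) (t + 1) - W j (τ + 1) t| ≤ (j + τ + 1) * E := by
      have h1 := Wdiff1 j (τ := τ + 1) (n := n) (m := n + 2) (x := t) (y := t + 1) (by linarith) hn ht.1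
        (by linarith) (by linarith [ht.2])
      refine h1.trans (le_of_eq ?_)
      have e1 : τ + 1 + 1 = τ + 2 := by ring
      rw [add_sub_cancel_left, mul_one, e1]
      ring
    have e : (j * W (j - 1) (τ + 1) (t + 1) - τ * W j (τ + 1) (t + 1)) -
        (j * W (j - 1) (τ + 1) t - τ * W j (τ + 1) t) =
        j * (W (j - 1) (τ + 1) (t + 1) - W (j - 1) (τ + 1) t) - τ * (W j (τ + 1) (t + 1) - W j (τ + 1) t) := by ring
    rw [e]
    calc |j * (W (j - 1) (τ + 1) (t + 1) - W (j - 1) (τ + 1) t) - τ * (W j (τ + 1) (t + 1) - W j (τ + 1) t)|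
        ≤ |j * (W (j - 1) (τ + 1) (t + 1) - W (j - 1) (τ + 1) t)| + |τ * (W j (τ + 1) (t + 1) - W j (τ + 1) t)| :=
          abs_sub _ _
      _ = j * |W (j - 1) (τ + 1) (t + 1) - W (j - 1) (τ + 1) t| + τ * |W j (τ + 1) (t + 1) - W j (τ + 1) t| := by
          rw [abs_mul, abs_mul, Nat.abs_cast, abs_of_nonneg hτ]
      _ ≤ j * ((j + τ + 1) * E) + τ * ((j + τ + 1) * E) :=
          add_le_add (mul_le_mul_of_nonneg_left a1 (Nat.cast_nonneg _)) (mul_le_mul_of_nonneg_left a2 hτ)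
      _ ≤ (j + τ + 1) ^ 2 * E := by
          have h5 : (0 : ℝ) ≤ (j + τ + 1) * E := by positivity
          nlinarith
  have h := Convex.norm_image_sub_le_of_norm_hasDerivWithin_le (f := fun t => W j τ (t + 1) - W j τ t)
    (f' := fun t => (j * W (j - 1) (τ + 1) (t + 1) - τ * W j (τ + 1) (t + 1)) -
      (j * W (j - 1) (τ + 1) t - τ * W j (τ + 1) t)) (s := Icc n (n + 1)) (x := n) (y := n + 1)
    (C := (j + τ + 1) ^ 2 * E)
    (fun t ht => (hsh t (by linarith [ht.1])).hasDerivWithinAt)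
    (fun t ht => by rw [Real.norm_eq_abs]; exact hb t ht) (convex_Icc _ _)
    ⟨le_rfl, by linarith⟩ ⟨by linarith, le_rfl⟩
  rw [Real.norm_eq_abs, Real.norm_eq_abs, add_sub_cancel_left, abs_one, mul_one] at h
  have e2 : W j τ (n + 1 + 1) - W j τ (n + 1) - (W j τ (n + 1) - W j τ n) =
      W j τ n - 2 * W j τ (n + 1) + W j τ (n + 2) := by
    have e3 : n + 1 + 1 = n + 2 := by ring
    rw [e3]
    ring
  rw [e2] at h
  exact h

/-! ### Summation by parts -/

theorem abel1 (b w : ℕ → ℝ) (N : ℕ) : ∑ m ∈ Finset.Icc 1 N, b m * w m =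
    (∑ m ∈ Finset.Icc 1 N, b m) * w (N + 1) +
      ∑ n ∈ Finset.Icc 1 N, (∑ m ∈ Finset.Icc 1 n, b m) * (w n - w (n + 1)) := by
  induction N with
  | zero => simp
  | succ N ih =>
    rw [Finset.sum_Icc_succ_top (by omega), Finset.sum_Icc_succ_top (by omega : 1 ≤ N + 1),
      Finset.sum_Icc_succ_top (by omega : 1 ≤ N + 1), ih, Finset.sum_Icc_succ_top (by omega : 1 ≤ N + 1)]
    ring

theorem tsum_lim {a : ℕ → ℝ} (ha : Summable a) (h0 : a 0 = 0) {M : ℝ} {e : ℕ → ℝ}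
    (he : Tendsto e atTop (𝓝 0)) (h : ∀ N, |∑ m ∈ Finset.Icc 1 N, a m| ≤ M + e N) : |∑' n, a n| ≤ M := by
  have h1 := ha.hasSum.tendsto_sum_nat
  have h2 : Tendsto (fun N => ∑ m ∈ Finset.Icc 1 N, a m) atTop (𝓝 (∑' n, a n)) := by
    refine ((tendsto_add_atTop_iff_nat 1).2 h1).congr fun N => ?_
    rw [Finset.range_eq_Ico, Finset.sum_eq_sum_Ico_succ_bot (by omega), h0, zero_add]
    rfl
  have h3 := h2.abs
  have h4 : Tendsto (fun N => M + e N) atTop (𝓝 (M + 0)) := he.const_add M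
  rw [add_zero] at h4
  exact le_of_tendsto_of_tendsto' h3 h4 h

/-! ### Bounds -/

theorem pe (j : ℕ) {η : ℝ} (hη : 0 < η) : ∃ C : ℝ, 0 ≤ C ∧ ∀ y : ℝ, 0 ≤ y → (3 + y) ^ j * Real.exp (-(η * y)) ≤ C := by
  refine ⟨(j.factorial : ℝ) * Real.exp (3 * η) / η ^ j, by positivity, fun y hy => ?_⟩
  have h1 := Real.pow_div_factorial_le_exp (x := η * (3 + y)) (by positivity) j
  rw [div_le_iff₀ (by positivity), mul_pow] at h1
  rw [le_div_iff₀ (by positivity)]
  have h2 : Real.exp (η * (3 + y)) = Real.exp (3 * η) * Real.exp (η * y) := by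
    rw [← Real.exp_add]
    congr 1
    ring
  rw [h2] at h1
  have h3 : Real.exp (η * y) * Real.exp (-(η * y)) = 1 := by rw [← Real.exp_add]; simp
  calc (3 + y) ^ j * Real.exp (-(η * y)) * η ^ j = (η ^ j * (3 + y) ^ j) * Real.exp (-(η * y)) := by ring
    _ ≤ (Real.exp (3 * η) * Real.exp (η * y) * (j.factorial : ℝ)) * Real.exp (-(η * y)) :=
        mul_le_mul_of_nonneg_right h1 (Real.exp_pos _).le
    _ = (j.factorial : ℝ) * Real.exp (3 * η) * (Real.exp (η * y) * Real.exp (-(η * y))) := by ring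
    _ = (j.factorial : ℝ) * Real.exp (3 * η) := by rw [h3, mul_one]

theorem lgn (n : ℕ) : 0 ≤ Real.log n := by
  rcases Nat.eq_zero_or_pos n with rfl | h
  · simp
  · exact Real.log_nonneg (by exact_mod_cast h)

theorem lg (n : ℕ) : 0 ≤ 1 + Real.log ((n : ℝ) + 1) ∧ 1 + Real.log ((n : ℝ) + 1) ≤ 1 + Real.log ((n : ℝ) + 2) ∧
    1 + Real.log ((n : ℝ) + 2) ≤ 3 + Real.log n := by
  have h0 : (0 : ℝ) ≤ n := Nat.cast_nonneg n
  refine ⟨?_, ?_, ?_⟩
  · have := Real.log_nonneg (by linarith : (1 : ℝ) ≤ (n : ℝ) + 1)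
    linarith
  · have := Real.log_le_log (by linarith : (0 : ℝ) < (n : ℝ) + 1) (by linarith : (n : ℝ) + 1 ≤ (n : ℝ) + 2)
    linarith
  · rcases Nat.eq_zero_or_pos n with rfl | h
    · have := Real.log_two_lt_d9
      simp only [Nat.cast_zero, zero_add, Real.log_zero, add_zero]
      linarith
    · have h1 : (1 : ℝ) ≤ n := by exact_mod_cast h
      have h2 : Real.log ((n : ℝ) + 2) ≤ Real.log (3 * n) := Real.log_le_log (by linarith) (by linarith)
      rw [Real.log_mul (by norm_num) (by linarith)] at h2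
      have h3 : Real.log 3 ≤ 3 - 1 := Real.log_le_sub_one_of_pos (by norm_num)
      linarith

theorem lim0 (j : ℕ) {η : ℝ} (hη : 0 < η) :
    Tendsto (fun N : ℕ => (1 + Real.log ((N : ℝ) + 2)) ^ j * Real.exp (-(η * Real.log ((N : ℝ) + 1)))) atTop
      (𝓝 0) := by
  obtain ⟨C, hC0, hC⟩ := pe j (half_pos hη)
  have h1 : Tendsto (fun N : ℕ => C * Real.exp (-(η / 2 * Real.log ((N : ℝ) + 1)))) atTop (𝓝 (C * 0)) := by
    refine Tendsto.const_mul C ?_
    refine Real.tendsto_exp_atBot.comp ?_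
    rw [tendsto_neg_atBot_iff]
    refine Tendsto.const_mul_atTop (half_pos hη) ?_
    exact Real.tendsto_log_atTop.comp (tendsto_natCast_atTop_atTop.atTop_add tendsto_const_nhds)
  rw [mul_zero] at h1
  refine squeeze_zero (fun N => ?_) (fun N => ?_) h1
  · have := (lg N).1
    have := (lg N).2.1
    exact mul_nonneg (pow_nonneg (by linarith) j) (Real.exp_pos _).le
  · have h2 := lg N
    have h4 : (1 : ℝ) ≤ (N : ℝ) + 1 := by
      have : (0 : ℝ) ≤ N := Nat.cast_nonneg N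
      linarith
    have h5 : Real.log N ≤ Real.log ((N : ℝ) + 1) := by
      rcases Nat.eq_zero_or_pos N with rfl | h
      · simp
      · exact Real.log_le_log (by exact_mod_cast h) (by linarith)
    have h6 := hC (Real.log ((N : ℝ) + 1)) (Real.log_nonneg h4)
    have h7 : (1 + Real.log ((N : ℝ) + 2)) ^ j ≤ (3 + Real.log ((N : ℝ) + 1)) ^ j :=
      pow_le_pow_left₀ (by linarith) (by linarith) j
    have h8 : Real.exp (-(η * Real.log ((N : ℝ) + 1))) =
        Real.exp (-(η / 2 * Real.log ((N : ℝ) + 1))) * Real.exp (-(η / 2 * Real.log ((N : ℝ) + 1))) := by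
      rw [← Real.exp_add]
      congr 1
      ring
    rw [h8]
    calc (1 + Real.log ((N : ℝ) + 2)) ^ j *
          (Real.exp (-(η / 2 * Real.log ((N : ℝ) + 1))) * Real.exp (-(η / 2 * Real.log ((N : ℝ) + 1))))
        ≤ (3 + Real.log ((N : ℝ) + 1)) ^ j *
          (Real.exp (-(η / 2 * Real.log ((N : ℝ) + 1))) * Real.exp (-(η / 2 * Real.log ((N : ℝ) + 1)))) :=
          mul_le_mul_of_nonneg_right h7 (by positivity)
      _ = ((3 + Real.log ((N : ℝ) + 1)) ^ j * Real.exp (-(η / 2 * Real.log ((N : ℝ) + 1)))) *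
          Real.exp (-(η / 2 * Real.log ((N : ℝ) + 1))) := by ring
      _ ≤ C * Real.exp (-(η / 2 * Real.log ((N : ℝ) + 1))) := mul_le_mul_of_nonneg_right h6 (Real.exp_pos _).le

theorem sE {s : ℝ} (hs : 1 < s) : Summable fun n : ℕ => Real.exp (-(s * Real.log n)) := by
  rw [← summable_nat_add_iff 1]
  have h1 := (summable_nat_add_iff 1).2 (Real.summable_nat_rpow.2 (by linarith : -s < -1))
  refine h1.congr fun n => ?_
  rw [Real.rpow_def_of_pos (by positivity)]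
  congr 1
  ring

theorem sW (j : ℕ) {τ : ℝ} (hτ : 1 < τ) :
    Summable fun n : ℕ => (1 + Real.log ((n : ℝ) + 2)) ^ j * Real.exp (-(τ * Real.log n)) := by
  obtain ⟨C, hC0, hC⟩ := pe j (η := (τ - 1) / 2) (by linarith)
  have h1 := (sE (s := (1 + τ) / 2) (by linarith)).mul_left C
  have hl := lg
  refine Summable.of_nonneg_of_le (fun n => ?_) (fun n => ?_) h1
  · have := (hl n).1
    have := (hl n).2.1
    exact mul_nonneg (pow_nonneg (by linarith) j) (Real.exp_pos _).le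
  · have h2 := hl n
    have h6 := hC (Real.log n) (lgn n)
    have h7 : (1 + Real.log ((n : ℝ) + 2)) ^ j ≤ (3 + Real.log n) ^ j :=
      pow_le_pow_left₀ (by linarith) (by linarith) j
    have h8 : Real.exp (-(τ * Real.log n)) =
        Real.exp (-((τ - 1) / 2 * Real.log n)) * Real.exp (-((1 + τ) / 2 * Real.log n)) := by
      rw [← Real.exp_add]
      congr 1
      ring
    rw [h8]
    calc (1 + Real.log ((n : ℝ) + 2)) ^ j *
          (Real.exp (-((τ - 1) / 2 * Real.log n)) * Real.exp (-((1 + τ) / 2 * Real.log n)))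
        ≤ (3 + Real.log n) ^ j *
          (Real.exp (-((τ - 1) / 2 * Real.log n)) * Real.exp (-((1 + τ) / 2 * Real.log n))) :=
          mul_le_mul_of_nonneg_right h7 (by positivity)
      _ = ((3 + Real.log n) ^ j * Real.exp (-((τ - 1) / 2 * Real.log n))) * Real.exp (-((1 + τ) / 2 * Real.log n)) := by
          ring
      _ ≤ C * Real.exp (-((1 + τ) / 2 * Real.log n)) := mul_le_mul_of_nonneg_right h6 (Real.exp_pos _).le

/-- summability of the series -/
theorem sbW {b : ℕ → ℝ} (hb : ∀ n, |b n| ≤ 2) (j : ℕ) {σ : ℝ} (hσ : 1 < σ) : Summable fun n : ℕ => b n * W j σ n := by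
  refine Summable.of_norm_bounded ((sW j hσ).mul_left 2) fun n => ?_
  have h2 := lg n
  have h3 := lgn n
  rw [Real.norm_eq_abs, abs_mul]
  refine mul_le_mul (hb n) ?_ (abs_nonneg _) (by norm_num)
  unfold W
  rw [abs_mul, abs_of_pos (Real.exp_pos _), abs_of_nonneg (pow_nonneg h3 j)]
  refine mul_le_mul_of_nonneg_right (pow_le_pow_left₀ h3 ?_ j) (Real.exp_pos _).le
  rcases Nat.eq_zero_or_pos n with rfl | h
  · simp only [Nat.cast_zero, Real.log_zero]
    have := (lg 0).1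
    have := (lg 0).2.1
    simp only [Nat.cast_zero] at *
    linarith
  · have h4 : Real.log n ≤ Real.log ((n : ℝ) + 2) := Real.log_le_log (by exact_mod_cast h) (by linarith)
    linarith

theorem expn {n : ℕ} (hn : 1 ≤ n) (k : ℕ) : Real.exp (-((k : ℝ) * Real.log n)) = 1 / (n : ℝ) ^ k := by
  have h0 : (0 : ℝ) < n := by exact_mod_cast hn
  rw [Real.exp_neg, ← Real.log_pow, Real.exp_log (by positivity), one_div]

theorem sL : Summable fun n : ℕ => 1 / ((n : ℝ) * Real.log ((n : ℝ) + 1) ^ 2) := by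
  rw [← summable_condensed_iff_of_nonneg]
  · rw [← summable_nat_add_iff 1]
    have h1 : Summable fun k : ℕ => (1 / Real.log 2 ^ 2) * (1 / ((k : ℝ) + 1) ^ 2) := by
      have h2 := (summable_nat_add_iff 1).2 (Real.summable_one_div_nat_pow.2 (by norm_num : 1 < 2))
      refine (h2.mul_left (1 / Real.log 2 ^ 2)).congr fun k => ?_
      push_cast
      rfl
    refine Summable.of_nonneg_of_le (fun k => by positivity) (fun k => ?_) h1
    have hl2 : 0 < Real.log 2 := Real.log_pos (by norm_num)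
    have hle : ((k : ℝ) + 1) * Real.log 2 ≤ Real.log ((2 : ℝ) ^ (k + 1) + 1) := by
      have h3 : Real.log ((2 : ℝ) ^ (k + 1)) ≤ Real.log ((2 : ℝ) ^ (k + 1) + 1) :=
        Real.log_le_log (by positivity) (by linarith)
      rw [Real.log_pow] at h3
      push_cast at h3
      exact h3
    have hp : (0 : ℝ) < 2 ^ (k + 1) := by positivity
    have hlp : 0 < Real.log ((2 : ℝ) ^ (k + 1) + 1) := lt_of_lt_of_le (by positivity) hle
    push_cast
    have e : (2 : ℝ) ^ (k + 1) * (1 / (2 ^ (k + 1) * Real.log (2 ^ (k + 1) + 1) ^ 2)) =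
        1 / Real.log (2 ^ (k + 1) + 1) ^ 2 := by
      field_simp
    have e2 : 1 / Real.log 2 ^ 2 * (1 / ((k : ℝ) + 1) ^ 2) = 1 / (((k : ℝ) + 1) * Real.log 2) ^ 2 := by
      rw [mul_pow]
      field_simp
    rw [e, e2]
    apply one_div_le_one_div_of_le (by positivity)
    exact pow_le_pow_left₀ (by positivity) hle 2
  · intro n
    positivity
  · intro m n hm hmn
    have h0 : (0 : ℝ) < m := by exact_mod_cast hm
    have h1 : (m : ℝ) ≤ n := by exact_mod_cast hmn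
    have h2 : 0 < Real.log ((m : ℝ) + 1) := Real.log_pos (by linarith)
    have h3 : Real.log ((m : ℝ) + 1) ≤ Real.log ((n : ℝ) + 1) := Real.log_le_log (by linarith) (by linarith)
    apply one_div_le_one_div_of_le (by positivity)
    exact mul_le_mul h1 (pow_le_pow_left₀ h2.le h3 2) (by positivity) (by linarith)

/-- summation by parts -/
theorem par1 {b : ℕ → ℝ} (hb0 : b 0 = 0) (hb : ∀ n, |b n| ≤ 2) (j : ℕ) {β : ℕ → ℝ} (hβ : Summable β)
    (hβ0 : ∀ n, 0 ≤ β n)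
    (h : ∀ n : ℕ, 1 ≤ n → |∑ m ∈ Finset.Icc 1 n, b m| *
      ((j + 2) * ((1 + Real.log ((n : ℝ) + 2)) ^ j * Real.exp (-(2 * Real.log n)))) ≤ β n) :
    ∃ M : ℝ, ∀ σ ∈ Ioo (1 : ℝ) 2, |∑' n : ℕ, b n * W j σ n| ≤ M := by
  refine ⟨∑' n, β n, fun σ hσ => ?_⟩
  have hσ1 := hσ.1
  have hσ2 := hσ.2
  have hlim := (lim0 j (η := σ - 1) (by linarith)).const_mul 2
  rw [mul_zero] at hlim
  refine tsum_lim (sbW hb j hσ.1) (by rw [hb0, zero_mul]) hlim fun N => ?_
  have hab := abel1 b (fun n => W j σ n) N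
  rw [hab]
  refine (abs_add_le _ _).trans ?_
  rw [add_comm]
  refine add_le_add ?_ ?_
  · refine (Finset.abs_sum_le_sum_abs _ _).trans ?_
    refine le_trans ?_ (hβ.sum_le_tsum (Finset.Icc 1 N) fun n _ => hβ0 n)
    refine Finset.sum_le_sum fun n hn => ?_
    have hn1 : 1 ≤ n := (Finset.mem_Icc.1 hn).1
    have hn1' : (1 : ℝ) ≤ n := by exact_mod_cast hn1
    refine le_trans ?_ (h n hn1)
    rw [abs_mul]
    refine mul_le_mul_of_nonneg_left ?_ (abs_nonneg _)
    have h1 := Wdiff1 j (τ := σ) (n := n) (m := (n : ℝ) + 2) (x := n) (y := (n : ℝ) + 1) (by linarith) hn1' le_rfl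
      (by linarith) (by linarith)
    rw [abs_sub_comm, add_sub_cancel_left, mul_one] at h1
    push_cast
    refine h1.trans ?_
    have hL := lg n
    have hE : Real.exp (-((σ + 1) * Real.log n)) ≤ Real.exp (-(2 * Real.log n)) := by
      rw [Real.exp_le_exp]
      nlinarith [lgn n]
    have hpw : 0 ≤ (1 + Real.log ((n : ℝ) + 2)) ^ j := pow_nonneg (by linarith) j
    refine mul_le_mul (by linarith) (mul_le_mul_of_nonneg_left hE hpw) (mul_nonneg hpw (Real.exp_pos _).le)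
      (by positivity)
  · rw [abs_mul]
    have hB : |∑ m ∈ Finset.Icc 1 N, b m| ≤ 2 * ((N : ℝ) + 1) := by
      refine (Finset.abs_sum_le_sum_abs _ _).trans ?_
      refine (Finset.sum_le_sum fun m _ => hb m).trans ?_
      rw [Finset.sum_const, Nat.card_Icc, nsmul_eq_mul]
      have : ((N + 1 - 1 : ℕ) : ℝ) = N := by simp
      rw [this]
      linarith
    have hW : |W j σ ((N + 1 : ℕ) : ℝ)| ≤ (1 + Real.log ((N : ℝ) + 2)) ^ j * Real.exp (-(σ * Real.log ((N : ℝ) + 1))) := by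
      push_cast
      have h0 : (0 : ℝ) ≤ N := Nat.cast_nonneg N
      exact Wb le_rfl (by linarith) (by linarith) le_rfl (by linarith)
    have hN : (0 : ℝ) < (N : ℝ) + 1 := by positivity
    have hE : ((N : ℝ) + 1) * Real.exp (-(σ * Real.log ((N : ℝ) + 1))) =
        Real.exp (-((σ - 1) * Real.log ((N : ℝ) + 1))) := by
      have e1 : Real.exp (-((σ - 1) * Real.log ((N : ℝ) + 1))) =
          Real.exp (Real.log ((N : ℝ) + 1)) * Real.exp (-(σ * Real.log ((N : ℝ) + 1))) := by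
        rw [← Real.exp_add]
        congr 1
        ring
      rw [e1, Real.exp_log hN]
    calc |∑ m ∈ Finset.Icc 1 N, b m| * |W j σ ((N + 1 : ℕ) : ℝ)|
        ≤ (2 * ((N : ℝ) + 1)) * ((1 + Real.log ((N : ℝ) + 2)) ^ j * Real.exp (-(σ * Real.log ((N : ℝ) + 1)))) :=
          mul_le_mul hB hW (abs_nonneg _) (by positivity)
      _ = 2 * ((1 + Real.log ((N : ℝ) + 2)) ^ j * (((N : ℝ) + 1) * Real.exp (-(σ * Real.log ((N : ℝ) + 1))))) := by
          ring
      _ = 2 * ((1 + Real.log ((N : ℝ) + 2)) ^ j * Real.exp (-((σ - 1) * Real.log ((N : ℝ) + 1)))) := by rw [hE]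

/-- double summation by parts -/
theorem par2 {h : ℕ → ℝ} (hh0 : h 0 = 0) (hh : ∀ n, |h n| ≤ 2) {K j : ℕ} (hj : j ≤ K) {C : ℝ}
    (hC : ∀ Z : ℕ, 2 ≤ Z → |∑ m ∈ Finset.Icc 1 Z, h m * ((Z : ℝ) - m)| ≤ C * (Z : ℝ) ^ 2 / Real.log Z ^ (K + 2)) :
    ∃ M : ℝ, ∀ σ ∈ Ioo (1 : ℝ) 2, |∑' n : ℕ, h n * W j σ n| ≤ M := by
  have hC0 : 0 ≤ C := by
    have h1 := (abs_nonneg _).trans (hC 2 le_rfl)
    by_contra hcon
    push Not at hcon
    have h2 : 0 < Real.log ((2 : ℕ) : ℝ) ^ (K + 2) := by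
      apply pow_pos
      exact Real.log_pos (by norm_num)
    have h3 : C * ((2 : ℕ) : ℝ) ^ 2 / Real.log ((2 : ℕ) : ℝ) ^ (K + 2) < 0 := by
      apply div_neg_of_neg_of_pos _ h2
      push_cast
      nlinarith
    linarith
  set H : ℕ → ℝ := fun Z => ∑ m ∈ Finset.Icc 1 Z, h m * ((Z : ℝ) - m) with hH
  have hH1 : H 1 = 0 := by simp [hH]
  have hHB : ∀ n, ∑ m ∈ Finset.Icc 1 n, h m = H (n + 1) - H n := by
    intro n
    simp only [hH]
    rw [Finset.sum_Icc_succ_top (by omega), ← sub_eq_zero]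
    have e : ∑ m ∈ Finset.Icc 1 n, h m * (((n + 1 : ℕ) : ℝ) - m) =
        ∑ m ∈ Finset.Icc 1 n, h m * ((n : ℝ) - m) + ∑ m ∈ Finset.Icc 1 n, h m := by
      rw [← Finset.sum_add_distrib]
      refine Finset.sum_congr rfl fun m _ => ?_
      push_cast
      ring
    rw [e]
    ring
  have hHs : ∀ N, ∑ n ∈ Finset.Icc 1 N, ∑ m ∈ Finset.Icc 1 n, h m = H (N + 1) := by
    intro N
    induction N with
    | zero => simp [hH1]
    | succ N ih =>
      rw [Finset.sum_Icc_succ_top (by omega), ih, hHB]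
      ring
  have hHt : ∀ N, |H (N + 1)| ≤ 2 * ((N : ℝ) + 1) ^ 2 := by
    intro N
    simp only [hH]
    refine (Finset.abs_sum_le_sum_abs _ _).trans ?_
    have h1 : ∀ m ∈ Finset.Icc 1 (N + 1), |h m * (((N + 1 : ℕ) : ℝ) - m)| ≤ 2 * ((N : ℝ) + 1) := by
      intro m hm
      have h2 := Finset.mem_Icc.1 hm
      have h3 : (m : ℝ) ≤ (N : ℝ) + 1 := by exact_mod_cast h2.2
      have h4 : (0 : ℝ) ≤ m := Nat.cast_nonneg m
      rw [abs_mul]
      push_cast
      rw [abs_of_nonneg (by linarith : (0 : ℝ) ≤ (N : ℝ) + 1 - m)]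
      exact mul_le_mul (hh m) (by linarith) (by linarith) (by norm_num)
    refine (Finset.sum_le_sum h1).trans ?_
    rw [Finset.sum_const, Nat.card_Icc, nsmul_eq_mul]
    have h5 : ((N + 1 + 1 - 1 : ℕ) : ℝ) = (N : ℝ) + 1 := by
      rw [Nat.add_sub_cancel]
      push_cast
      ring
    rw [h5]
    exact le_of_eq (by ring)
  set β : ℕ → ℝ := fun n => C * ((n : ℝ) + 1) ^ 2 / Real.log ((n : ℝ) + 1) ^ (K + 2) *
    (((j : ℝ) + 3) ^ 2 * ((1 + Real.log ((n : ℝ) + 2)) ^ j * Real.exp (-(3 * Real.log n)))) with hβd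
  have hβ0 : ∀ n, 0 ≤ β n := by
    intro n
    have h1 := lg n
    have h2 : 0 ≤ Real.log ((n : ℝ) + 1) := Real.log_nonneg (by linarith [(Nat.cast_nonneg n : (0 : ℝ) ≤ n)])
    have h3 : 0 ≤ (1 + Real.log ((n : ℝ) + 2)) ^ j := pow_nonneg (by linarith) j
    simp only [hβd]
    positivity
  have hβ : Summable β := by
    refine Summable.of_nonneg_of_le hβ0 (fun n => ?_) (sL.mul_left (C * ((j : ℝ) + 3) ^ 2 * (4 ^ j * 2 ^ (K - j) * 4)))
    rcases Nat.eq_zero_or_pos n with rfl | hn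
    · simp [hβd]
    have hn' : (1 : ℝ) ≤ n := by exact_mod_cast hn
    have hl2 := Real.log_two_gt_d9
    set L := Real.log ((n : ℝ) + 1) with hL
    have hL2 : Real.log 2 ≤ L := Real.log_le_log (by norm_num) (by linarith)
    have hL0 : 0 < L := by linarith
    have h1 : 1 + Real.log ((n : ℝ) + 2) ≤ 4 * L := by
      have h2 : Real.log ((n : ℝ) + 2) ≤ Real.log (2 * ((n : ℝ) + 1)) := Real.log_le_log (by linarith) (by linarith)
      rw [Real.log_mul (by norm_num) (by linarith)] at h2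
      linarith
    have h3 : 0 ≤ 1 + Real.log ((n : ℝ) + 2) := by
      have := lg n
      linarith
    have h4 : (1 + Real.log ((n : ℝ) + 2)) ^ j ≤ 4 ^ j * L ^ j := by
      rw [← mul_pow]
      exact pow_le_pow_left₀ h3 h1 j
    have h5 : L ^ j / L ^ (K + 2) ≤ 2 ^ (K - j) * (1 / L ^ 2) := by
      have e1 : L ^ (K + 2) = L ^ j * L ^ (K - j) * L ^ 2 := by
        rw [← pow_add, ← pow_add]
        congr 1
        omega
      have h6 : 1 ≤ 2 ^ (K - j) * L ^ (K - j) := by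
        rw [← mul_pow]
        exact one_le_pow₀ (by linarith)
      rw [e1, div_le_iff₀ (by positivity)]
      have e2 : 2 ^ (K - j) * (1 / L ^ 2) * (L ^ j * L ^ (K - j) * L ^ 2) = L ^ j * (2 ^ (K - j) * L ^ (K - j)) := by
        field_simp
      rw [e2]
      exact le_mul_of_one_le_right (by positivity) h6
    have h7 : ((n : ℝ) + 1) ^ 2 * Real.exp (-(3 * Real.log n)) ≤ 4 * (1 / n) := by
      have e3 := expn hn 3
      push_cast at e3
      rw [e3]
      have h8 : ((n : ℝ) + 1) ^ 2 ≤ 4 * n ^ 2 := by nlinarith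
      have e4 : 4 * (1 / (n : ℝ)) = 4 * n ^ 2 * (1 / (n : ℝ) ^ 3) := by
        field_simp
      rw [e4]
      exact mul_le_mul_of_nonneg_right h8 (by positivity)
    calc β n = C * ((j : ℝ) + 3) ^ 2 * (((1 + Real.log ((n : ℝ) + 2)) ^ j / L ^ (K + 2)) *
          (((n : ℝ) + 1) ^ 2 * Real.exp (-(3 * Real.log n)))) := by
          simp only [hβd, ← hL]
          ring
      _ ≤ C * ((j : ℝ) + 3) ^ 2 * ((4 ^ j * (2 ^ (K - j) * (1 / L ^ 2))) * (4 * (1 / n))) := by
          refine mul_le_mul_of_nonneg_left ?_ (by positivity)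
          refine mul_le_mul ?_ h7 (by positivity) (by positivity)
          calc (1 + Real.log ((n : ℝ) + 2)) ^ j / L ^ (K + 2) ≤ (4 ^ j * L ^ j) / L ^ (K + 2) :=
                div_le_div_of_nonneg_right h4 (by positivity)
            _ = 4 ^ j * (L ^ j / L ^ (K + 2)) := by ring
            _ ≤ 4 ^ j * (2 ^ (K - j) * (1 / L ^ 2)) := mul_le_mul_of_nonneg_left h5 (by positivity)
      _ = C * ((j : ℝ) + 3) ^ 2 * (4 ^ j * 2 ^ (K - j) * 4) * (1 / (n * L ^ 2)) := by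
          field_simp
  refine ⟨∑' n, β n, fun σ hσ => ?_⟩
  have hσ1 := hσ.1
  have hσ2 := hσ.2
  have hlim := (lim0 j (η := σ - 1) (by linarith)).const_mul (2 + 2 * ((j : ℝ) + 2))
  rw [mul_zero] at hlim
  refine tsum_lim (sbW hh j hσ.1) (by rw [hh0, zero_mul]) hlim fun N => ?_
  have hab := abel1 h (fun n => W j σ n) N
  have hab2 := abel1 (fun n => ∑ m ∈ Finset.Icc 1 n, h m) (fun n => W j σ n - W j σ ((n + 1 : ℕ) : ℝ)) N
  rw [hab, hab2, hHs]
  have hN0 : (0 : ℝ) ≤ N := Nat.cast_nonneg N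
  have hN : (0 : ℝ) < (N : ℝ) + 1 := by positivity
  have hlN := lg N
  have hpw : 0 ≤ (1 + Real.log ((N : ℝ) + 2)) ^ j := pow_nonneg (by linarith) j
  have hE : ((N : ℝ) + 1) * Real.exp (-(σ * Real.log ((N : ℝ) + 1))) =
      Real.exp (-((σ - 1) * Real.log ((N : ℝ) + 1))) := by
    have e1 : Real.exp (-((σ - 1) * Real.log ((N : ℝ) + 1))) =
        Real.exp (Real.log ((N : ℝ) + 1)) * Real.exp (-(σ * Real.log ((N : ℝ) + 1))) := by
      rw [← Real.exp_add]
      congr 1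
      ring
    rw [e1, Real.exp_log hN]
  have hE2 : ((N : ℝ) + 1) ^ 2 * Real.exp (-((σ + 1) * Real.log ((N : ℝ) + 1))) =
      Real.exp (-((σ - 1) * Real.log ((N : ℝ) + 1))) := by
    have e1 : Real.exp (-((σ - 1) * Real.log ((N : ℝ) + 1))) =
        Real.exp (Real.log ((N : ℝ) + 1)) * Real.exp (Real.log ((N : ℝ) + 1)) *
          Real.exp (-((σ + 1) * Real.log ((N : ℝ) + 1))) := by
      rw [← Real.exp_add, ← Real.exp_add]
      congr 1
      ring
    rw [e1, Real.exp_log hN]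
    ring
  -- first boundary term
  have hT1 : |(∑ m ∈ Finset.Icc 1 N, h m) * W j σ ((N + 1 : ℕ) : ℝ)| ≤
      2 * ((1 + Real.log ((N : ℝ) + 2)) ^ j * Real.exp (-((σ - 1) * Real.log ((N : ℝ) + 1)))) := by
    rw [abs_mul]
    have hB : |∑ m ∈ Finset.Icc 1 N, h m| ≤ 2 * ((N : ℝ) + 1) := by
      refine (Finset.abs_sum_le_sum_abs _ _).trans ?_
      refine (Finset.sum_le_sum fun m _ => hh m).trans ?_
      rw [Finset.sum_const, Nat.card_Icc, nsmul_eq_mul]
      have : ((N + 1 - 1 : ℕ) : ℝ) = N := by simp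
      rw [this]
      linarith
    have hW : |W j σ ((N + 1 : ℕ) : ℝ)| ≤ (1 + Real.log ((N : ℝ) + 2)) ^ j * Real.exp (-(σ * Real.log ((N : ℝ) + 1))) := by
      push_cast
      exact Wb le_rfl (by linarith) (by linarith) le_rfl (by linarith)
    calc |∑ m ∈ Finset.Icc 1 N, h m| * |W j σ ((N + 1 : ℕ) : ℝ)|
        ≤ (2 * ((N : ℝ) + 1)) * ((1 + Real.log ((N : ℝ) + 2)) ^ j * Real.exp (-(σ * Real.log ((N : ℝ) + 1)))) :=
          mul_le_mul hB hW (abs_nonneg _) (by positivity)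
      _ = 2 * ((1 + Real.log ((N : ℝ) + 2)) ^ j * (((N : ℝ) + 1) * Real.exp (-(σ * Real.log ((N : ℝ) + 1))))) := by
          ring
      _ = 2 * ((1 + Real.log ((N : ℝ) + 2)) ^ j * Real.exp (-((σ - 1) * Real.log ((N : ℝ) + 1)))) := by rw [hE]
  -- second boundary term
  have hT2 : |H (N + 1) * (W j σ ((N + 1 : ℕ) : ℝ) - W j σ ((N + 1 + 1 : ℕ) : ℝ))| ≤
      2 * ((j : ℝ) + 2) * ((1 + Real.log ((N : ℝ) + 2)) ^ j * Real.exp (-((σ - 1) * Real.log ((N : ℝ) + 1)))) := by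
    rw [abs_mul]
    have h1 := Wdiff1 j (τ := σ) (n := (N : ℝ) + 1) (m := (N : ℝ) + 2) (x := (N : ℝ) + 1) (y := (N : ℝ) + 2)
      (by linarith) (by linarith) le_rfl (by linarith) le_rfl
    have e0 : (N : ℝ) + 2 - ((N : ℝ) + 1) = 1 := by ring
    rw [abs_sub_comm, e0, mul_one] at h1
    have e5 : ((N + 1 + 1 : ℕ) : ℝ) = (N : ℝ) + 2 := by push_cast; ring
    have e6 : ((N + 1 : ℕ) : ℝ) = (N : ℝ) + 1 := by push_cast; ring
    rw [e5, e6]
    calc |H (N + 1)| * |W j σ ((N : ℝ) + 1) - W j σ ((N : ℝ) + 2)|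
        ≤ (2 * ((N : ℝ) + 1) ^ 2) *
          ((j + σ) * ((1 + Real.log ((N : ℝ) + 2)) ^ j * Real.exp (-((σ + 1) * Real.log ((N : ℝ) + 1))))) :=
          mul_le_mul (hHt N) h1 (abs_nonneg _) (by positivity)
      _ = 2 * (j + σ) * ((1 + Real.log ((N : ℝ) + 2)) ^ j *
          (((N : ℝ) + 1) ^ 2 * Real.exp (-((σ + 1) * Real.log ((N : ℝ) + 1))))) := by ring
      _ = 2 * (j + σ) * ((1 + Real.log ((N : ℝ) + 2)) ^ j * Real.exp (-((σ - 1) * Real.log ((N : ℝ) + 1)))) := by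
          rw [hE2]
      _ ≤ _ := by
          refine mul_le_mul_of_nonneg_right (by linarith) (by positivity)
  -- the sum
  have hT3 : |∑ n ∈ Finset.Icc 1 N, (∑ k ∈ Finset.Icc 1 n, ∑ m ∈ Finset.Icc 1 k, h m) *
      (W j σ n - W j σ ((n + 1 : ℕ) : ℝ) - (W j σ ((n + 1 : ℕ) : ℝ) - W j σ ((n + 1 + 1 : ℕ) : ℝ)))| ≤ ∑' n, β n := by
    refine (Finset.abs_sum_le_sum_abs _ _).trans ?_
    refine le_trans ?_ (hβ.sum_le_tsum (Finset.Icc 1 N) fun n _ => hβ0 n)
    refine Finset.sum_le_sum fun n hn => ?_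
    have hn1 : 1 ≤ n := (Finset.mem_Icc.1 hn).1
    have hn1' : (1 : ℝ) ≤ n := by exact_mod_cast hn1
    rw [hHs, abs_mul]
    have h1 := Wdiff2 j (τ := σ) (n := n) (by linarith) hn1'
    have e5 : ((n + 1 + 1 : ℕ) : ℝ) = (n : ℝ) + 2 := by push_cast; ring
    have e6 : ((n + 1 : ℕ) : ℝ) = (n : ℝ) + 1 := by push_cast; ring
    have e7 : W j σ n - W j σ ((n : ℝ) + 1) - (W j σ ((n : ℝ) + 1) - W j σ ((n : ℝ) + 2)) =
        W j σ n - 2 * W j σ ((n : ℝ) + 1) + W j σ ((n : ℝ) + 2) := by ring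
    rw [e5, e6, e7]
    have h2 := hC (n + 1) (by omega)
    rw [e6] at h2
    have h3 : |H (n + 1)| ≤ C * ((n : ℝ) + 1) ^ 2 / Real.log ((n : ℝ) + 1) ^ (K + 2) := by
      simp only [hH]
      rw [e6]
      exact h2
    have hlg := lg n
    have hpn : 0 ≤ (1 + Real.log ((n : ℝ) + 2)) ^ j := pow_nonneg (by linarith) j
    refine mul_le_mul h3 (h1.trans ?_) (abs_nonneg _) ((abs_nonneg _).trans h3)
    have hEx : Real.exp (-((σ + 2) * Real.log n)) ≤ Real.exp (-(3 * Real.log n)) := by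
      rw [Real.exp_le_exp]
      nlinarith [lgn n]
    have hj0 : (0 : ℝ) ≤ j := Nat.cast_nonneg j
    refine mul_le_mul (pow_le_pow_left₀ (by linarith) (by linarith) 2) (mul_le_mul_of_nonneg_left hEx hpn)
      (mul_nonneg hpn (Real.exp_pos _).le) (by positivity)
  refine (abs_add_le _ _).trans ?_
  have h9 := (abs_add_le (H (N + 1) * (W j σ ((N + 1 : ℕ) : ℝ) - W j σ ((N + 1 + 1 : ℕ) : ℝ)))
    (∑ n ∈ Finset.Icc 1 N, (∑ k ∈ Finset.Icc 1 n, ∑ m ∈ Finset.Icc 1 k, h m) *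
      (W j σ n - W j σ ((n + 1 : ℕ) : ℝ) - (W j σ ((n + 1 : ℕ) : ℝ) - W j σ ((n + 1 + 1 : ℕ) : ℝ)))))
  have e9 : (2 + 2 * ((j : ℝ) + 2)) *
      ((1 + Real.log ((N : ℝ) + 2)) ^ j * Real.exp (-((σ - 1) * Real.log ((N : ℝ) + 1)))) =
      2 * ((1 + Real.log ((N : ℝ) + 2)) ^ j * Real.exp (-((σ - 1) * Real.log ((N : ℝ) + 1)))) +
      2 * ((j : ℝ) + 2) * ((1 + Real.log ((N : ℝ) + 2)) ^ j * Real.exp (-((σ - 1) * Real.log ((N : ℝ) + 1)))) := by
    ring
  rw [e9]
  linarith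

end Pool.Agent.Q153.EP
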