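import Pool.Agent.Q153.EP.Eul

/-!
# Project EP (helper255), job SOFT: the logarithm of an Euler product
-/

set_option autoImplicit false

namespace Pool.Agent.Q153.EP

open Filter Topology Set

section

variable (f : ℕ → ℝ) (h1 : f 1 = 1) (hm : ∀ m n : ℕ, f (m * n) = f m * f n) (hb : ∀ n, |f n| ≤ 1)

/-- the coefficients of the sum over the primes -/
noncomputable def fp (n : ℕ) : ℝ := if n.Prime then f n else 0

theorem fp_tsum (σ : ℝ) : ∑' p : Nat.Primes, f p * Real.exp (-(σ * Real.log ((p : ℕ) : ℝ))) =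
    DS (fp f) (fun n : ℕ => Real.log n) σ := by
  have h := tsum_subtype {p : ℕ | p.Prime} (fun n : ℕ => f n * Real.exp (-(σ * Real.log (n : ℝ))))
  unfold DS
  refine Eq.trans h ?_
  refine tsum_congr fun n => ?_
  unfold fp
  by_cases hp : n.Prime
  · rw [if_pos hp, indicator_of_mem (by exact hp)]
  · rw [if_neg hp, indicator_of_notMem (by exact hp), zero_mul]

include h1 hm hb in
theorem eulLog {σ : ℝ} (hσ : 1 < σ) :
    0 < ∑' n, gt f σ n ∧
      Real.log (∑' n, gt f σ n) = -DS (fp f) (fun n : ℕ => Real.log n) σ - DS (cE f) lE σ := by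
  have hx : ∀ p : Nat.Primes, |f p * Real.exp (-(σ * Real.log ((p : ℕ) : ℝ)))| ≤ 1 / 2 := by
    intro p
    rw [abs_mul, abs_of_pos (Real.exp_pos _)]
    calc |f p| * Real.exp (-(σ * Real.log ((p : ℕ) : ℝ))) ≤ 1 * (1 / 2) :=
          mul_le_mul (hb _) (ep_le hσ p) (Real.exp_pos _).le (by norm_num)
      _ = 1 / 2 := one_mul _
  have hxs : Summable fun p : Nat.Primes => f p * Real.exp (-(σ * Real.log ((p : ℕ) : ℝ))) := by
    have s1 : Summable fun p : Nat.Primes => Real.exp (-(σ * Real.log ((p : ℕ) : ℝ))) :=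
      (sE hσ).comp_injective (i := fun p : Nat.Primes => (p : ℕ)) Subtype.val_injective
    refine Summable.of_norm_bounded s1 fun p => ?_
    rw [Real.norm_eq_abs, abs_mul, abs_of_pos (Real.exp_pos _)]
    exact mul_le_of_le_one_left (Real.exp_pos _).le (hb _)
  have hpos : ∀ p : Nat.Primes, 0 < 1 - f p * Real.exp (-(σ * Real.log ((p : ℕ) : ℝ))) := by
    intro p
    have := (le_abs_self _).trans (hx p)
    linarith
  have hls : Summable fun p : Nat.Primes => Real.log (1 - f p * Real.exp (-(σ * Real.log ((p : ℕ) : ℝ)))) := by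
    have := Real.summable_log_one_add_of_summable hxs.neg
    refine this.congr fun p => ?_
    rw [← sub_eq_add_neg]
  have e1 := Real.rexp_tsum_eq_tprod hpos hls
  have e2 := (euler f h1 hm hb hσ).tprod_eq
  rw [e2] at e1
  have e3 : ∀ p : Nat.Primes, Real.log (1 - f p * Real.exp (-(σ * Real.log ((p : ℕ) : ℝ)))) =
      -(f p * Real.exp (-(σ * Real.log ((p : ℕ) : ℝ)))) -
        ∑' k : ℕ, cE f (p, k) * Real.exp (-(σ * lE (p, k))) := by
    intro p
    have h2 := Real.hasSum_pow_div_log_of_abs_lt_one (x := f p * Real.exp (-(σ * Real.log ((p : ℕ) : ℝ))))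
      (lt_of_le_of_lt (hx p) (by norm_num))
    have h3 := (hasSum_nat_add_iff' 1).2 h2
    rw [Finset.sum_range_one, Nat.cast_zero, zero_add, pow_one, zero_add, div_one] at h3
    have h4 : (fun k : ℕ => (f p * Real.exp (-(σ * Real.log ((p : ℕ) : ℝ)))) ^ (k + 1 + 1) / (((k + 1 : ℕ) : ℝ) + 1)) =
        fun k : ℕ => cE f (p, k) * Real.exp (-(σ * lE (p, k))) := by
      funext k
      unfold cE lE
      have h5 : Real.exp (-(σ * (((k : ℝ) + 2) * Real.log ((p : ℕ) : ℝ)))) =
          Real.exp (-(σ * Real.log ((p : ℕ) : ℝ))) ^ (k + 2) := by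
        rw [← Real.exp_nat_mul]
        congr 1
        push_cast
        ring
      simp only
      rw [h5, mul_pow]
      push_cast
      ring
    rw [h4] at h3
    have h6 := h3.tsum_eq
    linarith
  have hA := (E_BB f hb).1
  have e4 : ∑' p : Nat.Primes, Real.log (1 - f p * Real.exp (-(σ * Real.log ((p : ℕ) : ℝ)))) =
      -DS (fp f) (fun n : ℕ => Real.log n) σ - DS (cE f) lE σ := by
    rw [tsum_congr e3, Summable.tsum_sub hxs.neg (hA.summ hσ).prod, tsum_neg, fp_tsum]
    congr 1
    exact ((hA.summ hσ).tsum_prod).symm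
  rw [e4] at e1
  rw [← e1]
  exact ⟨Real.exp_pos _, Real.log_exp _⟩

end

end Pool.Agent.Q153.EP
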