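import Pool.Agent.Q255.EP.Stm3
import Pool.Agent.Q153.EP.EulLog

/-!
# Project EP (helper255), job SOFT: the completely multiplicative function of the signs
-/

set_option autoImplicit false

namespace Pool.Agent.Q153.EP

open Filter Topology Set Pool.Agent.Q255.IC Pool.Agent.Q255.EP

theorem sg_abs (ω : ℕ → Bool) (k : ℕ) : |sg ω k| = 1 := by
  unfold sg
  split_ifs <;> norm_num

theorem cm_abs (ω : ℕ → Bool) (n : ℕ) : |cm ω n| = 1 := by
  unfold cm Finsupp.prod
  rw [Finset.abs_prod]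
  refine Finset.prod_eq_one fun p _ => ?_
  rw [abs_pow, sg_abs, one_pow]

theorem cm_one (ω : ℕ → Bool) : cm ω 1 = 1 := by
  unfold cm
  rw [Nat.factorization_one, Finsupp.prod_zero_index]

theorem cm_mul (ω : ℕ → Bool) {m n : ℕ} (hm : m ≠ 0) (hn : n ≠ 0) : cm ω (m * n) = cm ω m * cm ω n := by
  unfold cm
  rw [Nat.factorization_mul hm hn]
  refine Finsupp.prod_add_index' (fun p => pow_zero _) fun p a b => pow_add _ _ _

theorem cm_prime (ω : ℕ → Bool) {p : ℕ} (hp : p.Prime) : cm ω p = sg ω (Nat.count Nat.Prime p) := by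
  unfold cm
  rw [Nat.Prime.factorization hp, Finsupp.prod_single_index (h := fun p k => sg ω (Nat.count Nat.Prime p) ^ k)
    (pow_zero _), pow_one]

/-- the function away from `3` -/
noncomputable def F3 (ω : ℕ → Bool) (n : ℕ) : ℝ := if 3 ∣ n then 0 else cm ω n

theorem F3_one (ω : ℕ → Bool) : F3 ω 1 = 1 := by
  unfold F3
  rw [if_neg (by norm_num), cm_one]

theorem F3_abs (ω : ℕ → Bool) (n : ℕ) : |F3 ω n| ≤ 1 := by
  unfold F3
  split_ifs
  · rw [abs_zero]; norm_num
  · rw [cm_abs]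

theorem F3_mul (ω : ℕ → Bool) (m n : ℕ) : F3 ω (m * n) = F3 ω m * F3 ω n := by
  unfold F3
  by_cases hm : 3 ∣ m
  · rw [if_pos hm, if_pos (hm.mul_right n), zero_mul]
  by_cases hn : 3 ∣ n
  · rw [if_pos hn, if_pos (hn.mul_left m), mul_zero]
  have hmn : ¬ 3 ∣ m * n := by
    intro h
    rcases (Nat.Prime.dvd_mul Nat.prime_three).1 h with h | h
    · exact hm h
    · exact hn h
  rw [if_neg hm, if_neg hn, if_neg hmn]
  refine cm_mul ω ?_ ?_
  · rintro rfl
    exact hm (dvd_zero 3)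
  · rintro rfl
    exact hn (dvd_zero 3)

/-- a sum over the primes up to `n` -/
theorem sum_primes (a : ℕ → ℝ) (n : ℕ) : ∑ m ∈ Finset.Icc 1 n, (if m.Prime then a m else 0) =
    ∑ k ∈ Finset.range (Nat.count Nat.Prime (n + 1)), a (pr k) := by
  induction n with
  | zero =>
    rw [show Nat.count Nat.Prime (0 + 1) = 0 by decide]
    simp
  | succ n ih =>
    rw [Finset.sum_Icc_succ_top (by omega), ih, Nat.count_succ Nat.Prime (n + 1)]
    by_cases hp : (n + 1).Prime
    · rw [if_pos hp, if_pos hp, Finset.sum_range_succ]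
      congr 1
      unfold pr
      rw [Nat.nth_count hp]
    · rw [if_neg hp, if_neg hp, add_zero, add_zero]

/-- the coefficients -/
noncomputable def hh (ω : ℕ → Bool) (m : ℕ) : ℝ := ((ArithmeticFunction.moebius m : ℤ) : ℝ) * cm ω m * c3 m

theorem hh_zero (ω : ℕ → Bool) : hh ω 0 = 0 := by
  unfold hh
  simp

theorem hh_abs (ω : ℕ → Bool) (m : ℕ) : |hh ω m| ≤ 2 := by
  unfold hh
  have h2 : |((ArithmeticFunction.moebius m : ℤ) : ℝ)| ≤ 1 := by
    have := ArithmeticFunction.abs_moebius_le_one (n := m)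
    exact_mod_cast this
  have h3 : |c3 m| ≤ 1 := by
    unfold c3
    split_ifs <;> norm_num [abs_le]
  rw [abs_mul, abs_mul, cm_abs, mul_one]
  have := mul_le_mul h2 h3 (abs_nonneg _) (by norm_num)
  linarith

/-- the factor at `3` -/
noncomputable def r3 (ω : ℕ → Bool) (σ : ℝ) : ℝ := -1 / 4 + (-(cm ω 3) / 2) * Real.exp (-(σ * Real.log 3))

theorem hh_mul3 (ω : ℕ → Bool) (m : ℕ) : hh ω (3 * m) =
    (-(cm ω 3) / 2) * (((ArithmeticFunction.moebius m : ℤ) : ℝ) * F3 ω m) := by
  rcases Nat.eq_zero_or_pos m with rfl | hm0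
  · unfold hh
    simp
  unfold hh F3 c3
  rw [if_pos (dvd_mul_right 3 m), cm_mul ω (by norm_num) hm0.ne']
  by_cases h3 : 3 ∣ m
  · rw [if_pos h3]
    have h4 : ArithmeticFunction.moebius (3 * m) = 0 := by
      apply ArithmeticFunction.moebius_eq_zero_of_not_squarefree
      intro hs
      obtain ⟨k, rfl⟩ := h3
      have h5 : (3 : ℕ) * 3 ∣ 3 * (3 * k) := ⟨k, by ring⟩
      have h6 := hs 3 h5
      rw [Nat.isUnit_iff] at h6
      omega
    rw [h4]
    simp
  · rw [if_neg h3]
    have hc : Nat.Coprime 3 m := (Nat.Prime.coprime_iff_not_dvd Nat.prime_three).2 h3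
    rw [ArithmeticFunction.isMultiplicative_moebius.map_mul_of_coprime hc,
      ArithmeticFunction.moebius_apply_prime Nat.prime_three]
    push_cast
    ring

theorem G_eq (ω : ℕ → Bool) {σ : ℝ} (hσ : 1 < σ) :
    DS (hh ω) (fun n : ℕ => Real.log n) σ = r3 ω σ * ∑' n, gt (F3 ω) σ n := by
  have hg : Summable fun n => gt (F3 ω) σ n := (gt_sum (F3 ω) (F3_abs ω) hσ).of_norm
  have e1 : ∀ m : ℕ, hh ω m * Real.exp (-(σ * Real.log m)) = (-1 / 4) * gt (F3 ω) σ m +
      (if 3 ∣ m then hh ω m * Real.exp (-(σ * Real.log m)) else 0) := by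
    intro m
    by_cases h3 : 3 ∣ m
    · rw [if_pos h3]
      unfold gt F3
      rw [if_pos h3]
      ring
    · rw [if_neg h3]
      unfold hh gt F3 c3
      rw [if_neg h3, if_neg h3]
      ring
  have hinj : Function.Injective fun m : ℕ => 3 * m := fun a b h => by
    simp only at h
    omega
  have e2 : ∀ m : ℕ, (fun m : ℕ => if 3 ∣ m then hh ω m * Real.exp (-(σ * Real.log m)) else 0) (3 * m) =
      ((-(cm ω 3) / 2) * Real.exp (-(σ * Real.log 3))) * gt (F3 ω) σ m := by
    intro m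
    simp only
    rw [if_pos (dvd_mul_right 3 m), hh_mul3]
    rcases Nat.eq_zero_or_pos m with rfl | hm0
    · unfold gt
      simp
    rw [exp_mul σ (by norm_num) hm0.ne']
    unfold gt
    push_cast
    ring
  have hsupp : Function.support (fun m : ℕ => if 3 ∣ m then hh ω m * Real.exp (-(σ * Real.log m)) else 0) ⊆
      range fun m : ℕ => 3 * m := by
    intro m hm
    rw [Function.mem_support] at hm
    by_cases h3 : 3 ∣ m
    · obtain ⟨k, rfl⟩ := h3
      exact ⟨k, rfl⟩
    · simp only [if_neg h3] at hm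
      exact absurd rfl hm
  have e3 := hinj.tsum_eq hsupp
  rw [tsum_congr e2, tsum_mul_left] at e3
  have hs3 : Summable fun m : ℕ => if 3 ∣ m then hh ω m * Real.exp (-(σ * Real.log m)) else 0 := by
    have hs : Summable fun m : ℕ => hh ω m * Real.exp (-(σ * Real.log m)) := by
      have := sbW (hh_abs ω) 0 hσ
      unfold W at this
      simpa only [pow_zero, one_mul] using this
    refine Summable.of_norm_bounded hs.norm fun m => ?_
    split_ifs
    · exact le_rfl
    · rw [norm_zero]; exact norm_nonneg _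
  unfold DS
  rw [tsum_congr e1, (hg.mul_left _).tsum_add hs3, tsum_mul_left, ← e3]
  unfold r3
  ring

theorem r3_BB (ω : ℕ → Bool) (K : ℕ) : BB K (r3 ω) :=
  (BB.const K (-1 / 4)).add (BB.exp (Real.log 3) (-(cm ω 3) / 2) (Real.log_nonneg (by norm_num)))

theorem r3_low (ω : ℕ → Bool) {σ : ℝ} (hσ : 1 < σ) : 1 / 12 ≤ |r3 ω σ| := by
  have h1 : Real.exp (-(σ * Real.log 3)) ≤ 1 / 3 := by
    have h4 : Real.exp (-(σ * Real.log 3)) ≤ Real.exp (-Real.log 3) := by
      rw [Real.exp_le_exp]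
      have h3 : 0 < Real.log 3 := Real.log_pos (by norm_num)
      nlinarith
    have h5 : Real.exp (-Real.log 3) = 1 / 3 := by rw [Real.exp_neg, Real.exp_log (by norm_num), one_div]
    rw [h5] at h4
    exact h4
  have h2 := cm_abs ω 3
  have h3 : |(-(cm ω 3) / 2) * Real.exp (-(σ * Real.log 3))| ≤ 1 / 6 := by
    rw [abs_mul, abs_div, abs_neg, h2, abs_of_pos (Real.exp_pos _)]
    norm_num
    linarith
  unfold r3
  have h4 := neg_abs_le ((-(cm ω 3) / 2) * Real.exp (-(σ * Real.log 3)))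
  have h5 := le_abs_self ((-(cm ω 3) / 2) * Real.exp (-(σ * Real.log 3)))
  rw [le_abs]
  right
  linarith

end Pool.Agent.Q153.EP
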