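import Mathlib

/-!
# Project EP (helper255), job SOFT: functions on `(1, 2)` with bounded derivatives, Dirichlet series
-/

set_option autoImplicit false

namespace Pool.Agent.Q153.EP

open Filter Topology Set

/-- functions with bounded derivatives of orders `≤ k` on `(1, 2)` -/
def BB : ℕ → (ℝ → ℝ) → Prop
  | 0, φ => ∃ C : ℝ, ∀ σ ∈ Ioo (1 : ℝ) 2, |φ σ| ≤ C
  | k + 1, φ => (∃ C : ℝ, ∀ σ ∈ Ioo (1 : ℝ) 2, |φ σ| ≤ C) ∧
      ∃ φ' : ℝ → ℝ, (∀ σ ∈ Ioo (1 : ℝ) 2, HasDerivAt φ (φ' σ) σ) ∧ BB k φ'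

theorem BB.bdd {k : ℕ} {φ : ℝ → ℝ} (h : BB k φ) : ∃ C : ℝ, ∀ σ ∈ Ioo (1 : ℝ) 2, |φ σ| ≤ C := by
  cases k with
  | zero => exact h
  | succ k => exact h.1

theorem BB.down {k : ℕ} : ∀ {φ : ℝ → ℝ}, BB (k + 1) φ → BB k φ := by
  induction k with
  | zero => intro φ h; exact h.1
  | succ k ih =>
    rintro φ ⟨h1, φ', h2, h3⟩
    exact ⟨h1, φ', h2, ih h3⟩

theorem BB.congr {k : ℕ} {φ ψ : ℝ → ℝ} (h : BB k φ) (he : ∀ σ ∈ Ioo (1 : ℝ) 2, ψ σ = φ σ) : BB k ψ := by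
  have hb : ∀ {φ ψ : ℝ → ℝ}, (∃ C : ℝ, ∀ σ ∈ Ioo (1 : ℝ) 2, |φ σ| ≤ C) → (∀ σ ∈ Ioo (1 : ℝ) 2, ψ σ = φ σ) →
      ∃ C : ℝ, ∀ σ ∈ Ioo (1 : ℝ) 2, |ψ σ| ≤ C := by
    rintro φ ψ ⟨C, hC⟩ he
    exact ⟨C, fun σ hσ => by rw [he σ hσ]; exact hC σ hσ⟩
  cases k with
  | zero => exact hb h he
  | succ k =>
    obtain ⟨h1, φ', h2, h3⟩ := h
    refine ⟨hb h1 he, φ', fun σ hσ => ?_, h3⟩
    refine (h2 σ hσ).congr_of_eventuallyEq ?_
    filter_upwards [isOpen_Ioo.mem_nhds hσ] with x hx using he x hx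

theorem BB.const (k : ℕ) : ∀ c : ℝ, BB k (fun _ => c) := by
  induction k with
  | zero => intro c; exact ⟨|c|, fun σ _ => le_rfl⟩
  | succ k ih => intro c; exact ⟨⟨|c|, fun σ _ => le_rfl⟩, fun _ => 0, fun σ _ => hasDerivAt_const σ c, ih 0⟩

theorem BB.add {k : ℕ} : ∀ {φ ψ : ℝ → ℝ}, BB k φ → BB k ψ → BB k (fun σ => φ σ + ψ σ) := by
  have hb : ∀ {φ ψ : ℝ → ℝ}, (∃ C : ℝ, ∀ σ ∈ Ioo (1 : ℝ) 2, |φ σ| ≤ C) →
      (∃ C : ℝ, ∀ σ ∈ Ioo (1 : ℝ) 2, |ψ σ| ≤ C) → ∃ C : ℝ, ∀ σ ∈ Ioo (1 : ℝ) 2, |φ σ + ψ σ| ≤ C := by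
    rintro φ ψ ⟨C, hC⟩ ⟨D, hD⟩
    exact ⟨C + D, fun σ hσ => (abs_add_le _ _).trans (add_le_add (hC σ hσ) (hD σ hσ))⟩
  induction k with
  | zero => intro φ ψ h h'; exact hb h h'
  | succ k ih =>
    rintro φ ψ ⟨h1, φ', h2, h3⟩ ⟨g1, ψ', g2, g3⟩
    exact ⟨hb h1 g1, fun σ => φ' σ + ψ' σ, fun σ hσ => (h2 σ hσ).add (g2 σ hσ), ih h3 g3⟩

theorem BB.mul {k : ℕ} : ∀ {φ ψ : ℝ → ℝ}, BB k φ → BB k ψ → BB k (fun σ => φ σ * ψ σ) := by
  have hb : ∀ {φ ψ : ℝ → ℝ}, (∃ C : ℝ, ∀ σ ∈ Ioo (1 : ℝ) 2, |φ σ| ≤ C) →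
      (∃ C : ℝ, ∀ σ ∈ Ioo (1 : ℝ) 2, |ψ σ| ≤ C) → ∃ C : ℝ, ∀ σ ∈ Ioo (1 : ℝ) 2, |φ σ * ψ σ| ≤ C := by
    rintro φ ψ ⟨C, hC⟩ ⟨D, hD⟩
    refine ⟨C * D, fun σ hσ => ?_⟩
    rw [abs_mul]
    exact mul_le_mul (hC σ hσ) (hD σ hσ) (abs_nonneg _) ((abs_nonneg _).trans (hC σ hσ))
  induction k with
  | zero => intro φ ψ h h'; exact hb h h'
  | succ k ih =>
    rintro φ ψ h g
    have h' := h.down
    have g' := g.down
    obtain ⟨h1, φ', h2, h3⟩ := h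
    obtain ⟨g1, ψ', g2, g3⟩ := g
    exact ⟨hb h1 g1, fun σ => φ' σ * ψ σ + φ σ * ψ' σ, fun σ hσ => (h2 σ hσ).mul (g2 σ hσ),
      (ih h3 g').add (ih h' g3)⟩

theorem BB.neg {k : ℕ} {φ : ℝ → ℝ} (h : BB k φ) : BB k (fun σ => -φ σ) :=
  ((BB.const k (-1)).mul h).congr fun σ _ => by ring

theorem BB.inv {k : ℕ} {φ : ℝ → ℝ} (h : BB k φ) {c : ℝ} (hc : 0 < c) (hφ : ∀ σ ∈ Ioo (1 : ℝ) 2, c ≤ |φ σ|) :
    BB k (fun σ => (φ σ)⁻¹) := by
  have hb : ∃ C : ℝ, ∀ σ ∈ Ioo (1 : ℝ) 2, |(φ σ)⁻¹| ≤ C := by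
    refine ⟨c⁻¹, fun σ hσ => ?_⟩
    rw [abs_inv]
    exact inv_anti₀ hc (hφ σ hσ)
  induction k with
  | zero => exact hb
  | succ k ih =>
    have ih' := ih h.down
    obtain ⟨h1, φ', h2, h3⟩ := h
    refine ⟨hb, fun σ => -(φ' σ) * ((φ σ)⁻¹ * (φ σ)⁻¹), fun σ hσ => ?_, h3.neg.mul (ih'.mul ih')⟩
    have h4 : φ σ ≠ 0 := by
      intro h0
      have := hφ σ hσ
      rw [h0, abs_zero] at this
      linarith
    have h5 := (h2 σ hσ).inv h4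
    have h6 : -φ' σ / φ σ ^ 2 = -(φ' σ) * ((φ σ)⁻¹ * (φ σ)⁻¹) := by
      field_simp
    rw [h6] at h5
    exact h5

theorem BB.log {k : ℕ} {φ : ℝ → ℝ} (h : BB k φ) {c : ℝ} (hc : 0 < c) (hφ : ∀ σ ∈ Ioo (1 : ℝ) 2, c ≤ φ σ) :
    BB k (fun σ => Real.log (φ σ)) := by
  have hb : ∃ C : ℝ, ∀ σ ∈ Ioo (1 : ℝ) 2, |Real.log (φ σ)| ≤ C := by
    obtain ⟨D, hD⟩ := h.bdd
    refine ⟨|Real.log c| + |Real.log D|, fun σ hσ => ?_⟩
    have h1 := hφ σ hσ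
    have h2 := (le_abs_self _).trans (hD σ hσ)
    have h3 : Real.log c ≤ Real.log (φ σ) := Real.log_le_log hc h1
    have h4 : Real.log (φ σ) ≤ Real.log D := Real.log_le_log (by linarith) h2
    rw [abs_le]
    constructor
    · have := neg_abs_le (Real.log c)
      have := abs_nonneg (Real.log D)
      linarith
    · have := le_abs_self (Real.log D)
      have := abs_nonneg (Real.log c)
      linarith
  cases k with
  | zero => exact hb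
  | succ k =>
    have hinv : BB k (fun σ => (φ σ)⁻¹) := h.down.inv hc fun σ hσ => (hφ σ hσ).trans (le_abs_self _)
    obtain ⟨h1, φ', h2, h3⟩ := h
    refine ⟨hb, fun σ => φ' σ * (φ σ)⁻¹, fun σ hσ => ?_, h3.mul hinv⟩
    have h4 : φ σ ≠ 0 := by
      have := hφ σ hσ
      intro h0
      linarith
    have h5 := (h2 σ hσ).log h4
    rw [div_eq_mul_inv] at h5
    exact h5

theorem hd (a y : ℝ) : HasDerivAt (fun σ : ℝ => -(σ * a)) (-a) y := by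
  have h := ((hasDerivAt_id y).mul_const a).neg
  rw [one_mul] at h
  exact h

theorem BB.exp {k : ℕ} : ∀ a b : ℝ, 0 ≤ a → BB k (fun σ => b * Real.exp (-(σ * a))) := by
  have hb : ∀ a b : ℝ, 0 ≤ a → ∃ C : ℝ, ∀ σ ∈ Ioo (1 : ℝ) 2, |b * Real.exp (-(σ * a))| ≤ C := by
    intro a b ha
    refine ⟨|b|, fun σ hσ => ?_⟩
    rw [abs_mul, abs_of_pos (Real.exp_pos _)]
    have h1 : Real.exp (-(σ * a)) ≤ 1 := by
      rw [Real.exp_le_one_iff]
      have := mul_nonneg (by linarith [hσ.1] : (0 : ℝ) ≤ σ) ha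
      linarith
    calc |b| * Real.exp (-(σ * a)) ≤ |b| * 1 := mul_le_mul_of_nonneg_left h1 (abs_nonneg _)
      _ = |b| := mul_one _
  induction k with
  | zero => exact hb
  | succ k ih =>
    intro a b ha
    refine ⟨hb a b ha, fun σ => (-(b * a)) * Real.exp (-(σ * a)), fun σ _ => ?_, ih a _ ha⟩
    have h1 : HasDerivAt (fun σ : ℝ => -(σ * a)) (-a) σ := hd a σ
    have h2 := (h1.exp).const_mul b
    have h3 : b * (Real.exp (-(σ * a)) * -a) = (-(b * a)) * Real.exp (-(σ * a)) := by ring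
    rw [h3] at h2
    exact h2

/-! ### Dirichlet series -/

/-- `∑ c_i exp (-σ l_i)` -/
noncomputable def DS {ι : Type} (c l : ι → ℝ) (σ : ℝ) : ℝ := ∑' i, c i * Real.exp (-(σ * l i))

/-- absolute convergence for `σ > 1` -/
structure Adm {ι : Type} (c l : ι → ℝ) : Prop where
  nn : ∀ i, 0 ≤ l i
  sm : ∀ σ : ℝ, 1 < σ → Summable fun i => |c i| * Real.exp (-(σ * l i))

theorem xexp (x η : ℝ) (hη : 0 < η) : x * Real.exp (-(η * x)) ≤ 1 / η := by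
  rw [Real.exp_neg, ← div_eq_mul_inv, div_le_div_iff₀ (Real.exp_pos _) hη, one_mul]
  have := Real.add_one_le_exp (η * x)
  linarith

theorem Adm.der {ι : Type} {c l : ι → ℝ} (h : Adm c l) : Adm (fun i => -(c i * l i)) l := by
  refine ⟨h.nn, fun σ hσ => ?_⟩
  have h1 := (h.sm ((1 + σ) / 2) (by linarith)).mul_left (1 / ((σ - 1) / 2))
  refine Summable.of_nonneg_of_le (fun i => by positivity) (fun i => ?_) h1
  have h2 := xexp (l i) ((σ - 1) / 2) (by linarith)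
  have h3 : Real.exp (-(σ * l i)) = Real.exp (-((σ - 1) / 2 * l i)) * Real.exp (-((1 + σ) / 2 * l i)) := by
    rw [← Real.exp_add]
    congr 1
    ring
  rw [abs_neg, abs_mul, abs_of_nonneg (h.nn i), h3]
  calc |c i| * l i * (Real.exp (-((σ - 1) / 2 * l i)) * Real.exp (-((1 + σ) / 2 * l i)))
      = (l i * Real.exp (-((σ - 1) / 2 * l i))) * (|c i| * Real.exp (-((1 + σ) / 2 * l i))) := by ring
    _ ≤ 1 / ((σ - 1) / 2) * (|c i| * Real.exp (-((1 + σ) / 2 * l i))) :=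
        mul_le_mul_of_nonneg_right h2 (by positivity)

theorem Adm.summ {ι : Type} {c l : ι → ℝ} (h : Adm c l) {σ : ℝ} (hσ : 1 < σ) :
    Summable fun i => c i * Real.exp (-(σ * l i)) := by
  refine Summable.of_norm ((h.sm σ hσ).congr fun i => ?_)
  rw [Real.norm_eq_abs, abs_mul, abs_of_pos (Real.exp_pos _)]

theorem Adm.hasDeriv {ι : Type} {c l : ι → ℝ} (h : Adm c l) {σ : ℝ} (hσ : 1 < σ) :
    HasDerivAt (DS c l) (DS (fun i => -(c i * l i)) l σ) σ := by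
  have h1 := h.der.sm ((1 + σ) / 2) (by linarith)
  refine hasDerivAt_tsum_of_isPreconnected (g := fun i σ => c i * Real.exp (-(σ * l i)))
    (g' := fun i σ => -(c i * l i) * Real.exp (-(σ * l i))) (t := Ioi ((1 + σ) / 2)) h1 isOpen_Ioi
    isPreconnected_Ioi ?_ ?_ (y₀ := σ) ?_ (h.summ hσ) ?_
  · intro i y _
    have h1 : HasDerivAt (fun σ : ℝ => -(σ * l i)) (-(l i)) y := hd _ _
    have h2 := (h1.exp).const_mul (c i)
    have h3 : c i * (Real.exp (-(y * l i)) * -(l i)) = (-(c i * l i)) * Real.exp (-(y * l i)) := by ring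
    rw [h3] at h2
    exact h2
  · intro i y hy
    rw [Real.norm_eq_abs, abs_mul, abs_of_pos (Real.exp_pos _)]
    refine mul_le_mul_of_nonneg_left (Real.exp_le_exp.2 ?_) (abs_nonneg _)
    have := mul_le_mul_of_nonneg_right (le_of_lt hy) (h.nn i)
    linarith
  · rw [mem_Ioi]; linarith
  · rw [mem_Ioi]; linarith

theorem BB_of_DS {ι : Type} {l : ι → ℝ} (K : ℕ) : ∀ {c : ι → ℝ}, Adm c l →
    (∀ j ≤ K, ∃ C : ℝ, ∀ σ ∈ Ioo (1 : ℝ) 2, |DS (fun i => c i * l i ^ j) l σ| ≤ C) → BB K (DS c l) := by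
  induction K with
  | zero =>
    intro c _ h
    have h0 := h 0 le_rfl
    simp only [pow_zero, mul_one] at h0
    exact h0
  | succ K ih =>
    intro c hc h
    have h0 := h 0 (Nat.zero_le _)
    simp only [pow_zero, mul_one] at h0
    refine ⟨h0, DS (fun i => -(c i * l i)) l, fun σ hσ => hc.hasDeriv hσ.1,
      ih hc.der fun j hj => ?_⟩
    obtain ⟨C, hC⟩ := h (j + 1) (by omega)
    refine ⟨C, fun σ hσ => ?_⟩
    have h1 : DS (fun i => -(c i * l i) * l i ^ j) l σ = -DS (fun i => c i * l i ^ (j + 1)) l σ := by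
      unfold DS
      rw [← tsum_neg]
      refine tsum_congr fun i => ?_
      ring
    rw [h1, abs_neg]
    exact hC σ hσ

theorem DS_of_BB {ι : Type} {l : ι → ℝ} (K : ℕ) : ∀ {c : ι → ℝ}, Adm c l → BB K (DS c l) →
    ∃ C : ℝ, ∀ σ ∈ Ioo (1 : ℝ) 2, |DS (fun i => c i * l i ^ K) l σ| ≤ C := by
  induction K with
  | zero =>
    intro c _ h
    simp only [pow_zero, mul_one]
    exact h
  | succ K ih =>
    rintro c hc ⟨_, φ', h2, h3⟩
    have h4 : BB K (DS (fun i => -(c i * l i)) l) :=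
      h3.congr fun σ hσ => (hc.hasDeriv hσ.1).unique (h2 σ hσ)
    obtain ⟨C, hC⟩ := ih hc.der h4
    refine ⟨C, fun σ hσ => ?_⟩
    have h1 : DS (fun i => -(c i * l i) * l i ^ K) l σ = -DS (fun i => c i * l i ^ (K + 1)) l σ := by
      unfold DS
      rw [← tsum_neg]
      refine tsum_congr fun i => ?_
      ring
    have h5 := hC σ hσ
    rw [h1, abs_neg] at h5
    exact h5

/-- absolutely convergent at `1` with all the derivatives -/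
theorem BB_abs {ι : Type} {c l : ι → ℝ} (hl : ∀ i, 0 ≤ l i)
    (hs : ∀ j : ℕ, Summable fun i => |c i| * l i ^ j * Real.exp (-(l i))) :
    Adm c l ∧ ∀ K, BB K (DS c l) := by
  have hexp : ∀ (i : ι) (σ : ℝ), 1 < σ → Real.exp (-(σ * l i)) ≤ Real.exp (-(l i)) := by
    intro i σ hσ
    rw [Real.exp_le_exp]
    nlinarith [hl i]
  have hadm : Adm c l := by
    refine ⟨hl, fun σ hσ => ?_⟩
    refine Summable.of_nonneg_of_le (fun i => by positivity) (fun i => ?_) (hs 0)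
    rw [pow_zero, mul_one]
    exact mul_le_mul_of_nonneg_left (hexp i σ hσ) (abs_nonneg _)
  refine ⟨hadm, fun K => BB_of_DS K hadm fun j _ => ⟨∑' i, |c i| * l i ^ j * Real.exp (-(l i)), fun σ hσ => ?_⟩⟩
  have h1 : ∀ i, ‖c i * l i ^ j * Real.exp (-(σ * l i))‖ ≤ |c i| * l i ^ j * Real.exp (-(l i)) := by
    intro i
    rw [Real.norm_eq_abs, abs_mul, abs_mul, abs_of_pos (Real.exp_pos _), abs_of_nonneg (pow_nonneg (hl i) j)]
    exact mul_le_mul_of_nonneg_left (hexp i σ hσ.1) (mul_nonneg (abs_nonneg _) (pow_nonneg (hl i) j))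
  exact tsum_of_norm_bounded (hs j).hasSum h1

end Pool.Agent.Q153.EP
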