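import Pool.Agent.Q153.EP.DS
import Pool.Agent.Q153.EP.Abel

/-!
# Project EP (helper255), job SOFT: Euler products
-/

set_option autoImplicit false

namespace Pool.Agent.Q153.EP

open Filter Topology Set

section

variable (f : ℕ → ℝ) (h1 : f 1 = 1) (hm : ∀ m n : ℕ, f (m * n) = f m * f n) (hb : ∀ n, |f n| ≤ 1)

/-- the terms of the series of `μ f` -/
noncomputable def gt (σ : ℝ) (n : ℕ) : ℝ := ((ArithmeticFunction.moebius n : ℤ) : ℝ) * f n * Real.exp (-(σ * Real.log n))

include hb in
theorem gt_le (σ : ℝ) (n : ℕ) : ‖gt f σ n‖ ≤ Real.exp (-(σ * Real.log n)) := by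
  unfold gt
  rw [Real.norm_eq_abs, abs_mul, abs_mul, abs_of_pos (Real.exp_pos _)]
  have h2 : |((ArithmeticFunction.moebius n : ℤ) : ℝ)| ≤ 1 := by
    have := ArithmeticFunction.abs_moebius_le_one (n := n)
    exact_mod_cast this
  calc |((ArithmeticFunction.moebius n : ℤ) : ℝ)| * |f n| * Real.exp (-(σ * Real.log n))
      ≤ 1 * 1 * Real.exp (-(σ * Real.log n)) := by
        refine mul_le_mul_of_nonneg_right ?_ (Real.exp_pos _).le
        exact mul_le_mul h2 (hb n) (abs_nonneg _) (by norm_num)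
    _ = _ := by rw [one_mul, one_mul]

include hb in
theorem gt_sum {σ : ℝ} (hσ : 1 < σ) : Summable fun n => ‖gt f σ n‖ :=
  Summable.of_nonneg_of_le (fun _ => norm_nonneg _) (gt_le f hb σ) (sE hσ)

theorem exp_mul (σ : ℝ) {m n : ℕ} (hm0 : m ≠ 0) (hn0 : n ≠ 0) :
    Real.exp (-(σ * Real.log ((m * n : ℕ) : ℝ))) = Real.exp (-(σ * Real.log m)) * Real.exp (-(σ * Real.log n)) := by
  rw [← Real.exp_add, Nat.cast_mul, Real.log_mul (by exact_mod_cast hm0) (by exact_mod_cast hn0)]
  congr 1
  ring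

/-- `p^(-σ)` is at most `1/2` -/
theorem ep_le {σ : ℝ} (hσ : 1 < σ) (p : Nat.Primes) : Real.exp (-(σ * Real.log (p : ℕ))) ≤ 1 / 2 := by
  have hp : (2 : ℝ) ≤ ((p : ℕ) : ℝ) := by exact_mod_cast p.2.two_le
  have h2 : Real.log 2 ≤ Real.log (p : ℕ) := Real.log_le_log (by norm_num) hp
  have h3 : 0 < Real.log 2 := Real.log_pos (by norm_num)
  have h4 : Real.exp (-(σ * Real.log (p : ℕ))) ≤ Real.exp (-Real.log 2) := by
    rw [Real.exp_le_exp]
    nlinarith
  have h5 : Real.exp (-Real.log 2) = 1 / 2 := by rw [Real.exp_neg, Real.exp_log (by norm_num), one_div]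
  rw [h5] at h4
  exact h4

include h1 hm hb in
theorem euler {σ : ℝ} (hσ : 1 < σ) :
    HasProd (fun p : Nat.Primes => 1 - f p * Real.exp (-(σ * Real.log (p : ℕ)))) (∑' n, gt f σ n) := by
  have hg1 : gt f σ 1 = 1 := by simp [gt, h1]
  have hmul : ∀ {m n : ℕ}, Nat.Coprime m n → gt f σ (m * n) = gt f σ m * gt f σ n := by
    intro m n hmn
    rcases Nat.eq_zero_or_pos m with rfl | hm0
    · simp [gt]
    rcases Nat.eq_zero_or_pos n with rfl | hn0
    · simp [gt]
    unfold gt
    rw [exp_mul σ hm0.ne' hn0.ne', hm, ArithmeticFunction.isMultiplicative_moebius.map_mul_of_coprime hmn]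
    push_cast
    ring
  have h := EulerProduct.eulerProduct_hasProd hg1 hmul (gt_sum f hb hσ) (by simp [gt])
  have e : (fun p : Nat.Primes => ∑' e, gt f σ ((p : ℕ) ^ e)) =
      fun p : Nat.Primes => 1 - f p * Real.exp (-(σ * Real.log (p : ℕ))) := by
    funext p
    rw [tsum_eq_sum (s := Finset.range 2)]
    · rw [Finset.sum_range_succ, Finset.sum_range_one, pow_zero, pow_one, hg1]
      unfold gt
      rw [ArithmeticFunction.moebius_apply_prime p.2]
      push_cast
      ring
    · intro k hk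
      rw [Finset.mem_range, not_lt] at hk
      unfold gt
      rw [ArithmeticFunction.moebius_apply_prime_pow p.2 (by omega), if_neg (by omega)]
      simp
  rw [e] at h
  exact h

/-- the coefficients of the higher prime powers -/
noncomputable def cE (i : Nat.Primes × ℕ) : ℝ := f i.1 ^ (i.2 + 2) / ((i.2 : ℝ) + 2)

/-- the exponents -/
noncomputable def lE (i : Nat.Primes × ℕ) : ℝ := ((i.2 : ℝ) + 2) * Real.log ((i.1 : ℕ) : ℝ)

theorem logp (p : Nat.Primes) : Real.log 2 ≤ Real.log ((p : ℕ) : ℝ) :=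
  Real.log_le_log (by norm_num) (by exact_mod_cast p.2.two_le)

include hb in
theorem E_BB : Adm (cE f) lE ∧ ∀ K, BB K (DS (cE f) lE) := by
  have hl2 := Real.log_two_gt_d9
  refine BB_abs (fun i => ?_) fun j => ?_
  · unfold lE
    have := logp i.1
    exact mul_nonneg (by positivity) (by linarith)
  · obtain ⟨C, hC0, hC⟩ := pe j (η := 1 / 8) (by norm_num)
    have s1 : Summable fun p : Nat.Primes => Real.exp (-(7 / 4 * Real.log ((p : ℕ) : ℝ))) :=
      (sE (s := 7 / 4) (by norm_num)).comp_injective (i := fun p : Nat.Primes => (p : ℕ)) Subtype.val_injective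
    have s2 : Summable fun k : ℕ => Real.exp (-(7 / 8 * Real.log 2)) ^ k := by
      apply summable_geometric_of_lt_one (Real.exp_pos _).le
      rw [Real.exp_lt_one_iff]
      linarith
    have s3 := (s1.mul_of_nonneg s2 (fun _ => (Real.exp_pos _).le) (fun k => by positivity)).mul_left C
    refine Summable.of_nonneg_of_le (fun i => ?_) (fun i => ?_) s3
    · have := logp i.1
      have h3 : 0 ≤ lE i := by
        unfold lE
        exact mul_nonneg (by positivity) (by linarith)
      positivity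
    · have hp := logp i.1
      have h3 : 0 ≤ lE i := by
        unfold lE
        exact mul_nonneg (by positivity) (by linarith)
      have h4 : |cE f i| ≤ 1 := by
        unfold cE
        rw [abs_div, abs_pow, abs_of_nonneg (by positivity : (0 : ℝ) ≤ (i.2 : ℝ) + 2)]
        rw [div_le_one (by positivity)]
        have h5 : |f i.1| ^ (i.2 + 2) ≤ 1 := pow_le_one₀ (abs_nonneg _) (hb _)
        have h6 : (0 : ℝ) ≤ (i.2 : ℝ) := Nat.cast_nonneg _
        linarith
      have h5 : lE i ^ j ≤ (3 + lE i) ^ j := pow_le_pow_left₀ h3 (by linarith) j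
      have h6 : Real.exp (-(lE i)) = Real.exp (-(1 / 8 * lE i)) * Real.exp (-(7 / 8 * lE i)) := by
        rw [← Real.exp_add]
        congr 1
        ring
      have h7 : Real.exp (-(7 / 8 * lE i)) ≤
          Real.exp (-(7 / 4 * Real.log (((i.1 : Nat.Primes) : ℕ) : ℝ))) * Real.exp (-(7 / 8 * Real.log 2)) ^ i.2 := by
        rw [← Real.exp_nat_mul, ← Real.exp_add, Real.exp_le_exp]
        unfold lE
        have h8 : (0 : ℝ) ≤ (i.2 : ℝ) := Nat.cast_nonneg _
        nlinarith [mul_le_mul_of_nonneg_left hp h8]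
      calc |cE f i| * lE i ^ j * Real.exp (-(lE i)) ≤ 1 * (3 + lE i) ^ j * Real.exp (-(lE i)) := by
            refine mul_le_mul_of_nonneg_right ?_ (Real.exp_pos _).le
            exact mul_le_mul h4 h5 (by positivity) (by norm_num)
        _ = ((3 + lE i) ^ j * Real.exp (-(1 / 8 * lE i))) * Real.exp (-(7 / 8 * lE i)) := by rw [h6]; ring
        _ ≤ C * (Real.exp (-(7 / 4 * Real.log (((i.1 : Nat.Primes) : ℕ) : ℝ))) *
              Real.exp (-(7 / 8 * Real.log 2)) ^ i.2) :=
            mul_le_mul (hC _ h3) h7 (Real.exp_pos _).le hC0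

end

end Pool.Agent.Q153.EP
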