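import Pool.Agent.Q153.EP.Cm

/-!
# Project EP (helper255), job SOFT: a finitely smooth Euler product
-/

set_option autoImplicit false

namespace Pool.Agent.Q153.EP

open Filter Topology Set Pool.Agent.Q255.IC Pool.Agent.Q255.EP

/-- `(log (n+1))^(-(K-1/2))` -/
noncomputable def dd (K n : ℕ) : ℝ := Real.log ((n : ℝ) + 1) ^ (-((K : ℝ) - 1 / 2))

/-- the differences at the primes -/
noncomputable def bb (ω : ℕ → Bool) (K n : ℕ) : ℝ := if n.Prime then cm ω n + dd K n else 0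

/-- the corrections at the primes -/
noncomputable def dp (K n : ℕ) : ℝ := if n.Prime then dd K n else 0

theorem log3 : 1 ≤ Real.log 3 := by
  have h1 : Real.log 3 = Real.log 2 + Real.log (3 / 2) := by
    rw [← Real.log_mul (by norm_num) (by norm_num)]
    norm_num
  have h2 := Real.log_two_gt_d9
  have h3 := Real.one_sub_inv_le_log_of_pos (x := (3 : ℝ) / 2) (by norm_num)
  norm_num at h3
  rw [h1]
  linarith

theorem log_one_le {n : ℕ} (hn : 2 ≤ n) : 1 ≤ Real.log ((n : ℝ) + 1) := by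
  refine log3.trans (Real.log_le_log (by norm_num) ?_)
  have : (2 : ℝ) ≤ n := by exact_mod_cast hn
  linarith

theorem dd_nn (K n : ℕ) : 0 ≤ dd K n := by
  unfold dd
  refine Real.rpow_nonneg (Real.log_nonneg ?_) _
  have : (0 : ℝ) ≤ n := Nat.cast_nonneg _
  linarith

theorem dd_le {K n : ℕ} (hK : 1 ≤ K) (hn : 2 ≤ n) : dd K n ≤ 1 := by
  unfold dd
  refine Real.rpow_le_one_of_one_le_of_nonpos (log_one_le hn) ?_
  have : (1 : ℝ) ≤ K := by exact_mod_cast hK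
  linarith

/-- the lower bound of the corrections -/
theorem dd_low {K n : ℕ} (hn : 2 ≤ n) : (1 / 2 : ℝ) ^ K ≤ dd K n * Real.log n ^ K := by
  have h1 := log_one_le hn
  have hn2 : (2 : ℝ) ≤ n := by exact_mod_cast hn
  have h0 : 0 < Real.log n := Real.log_pos (by linarith)
  have h2 : Real.log ((n : ℝ) + 1) ≤ 2 * Real.log n := by
    have h3 : Real.log ((n : ℝ) + 1) ≤ Real.log ((n : ℝ) ^ 2) := Real.log_le_log (by linarith) (by nlinarith)
    rwa [Real.log_pow, Nat.cast_ofNat] at h3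
  have h3 : (Real.log ((n : ℝ) + 1)) ^ (-(K : ℝ)) ≤ dd K n := by
    unfold dd
    exact Real.rpow_le_rpow_of_exponent_le h1 (by linarith)
  rw [Real.rpow_neg (by linarith), Real.rpow_natCast] at h3
  have h4 : (1 / 2 : ℝ) ^ K ≤ (Real.log ((n : ℝ) + 1) ^ K)⁻¹ * Real.log n ^ K := by
    rw [← inv_pow, ← mul_pow]
    refine pow_le_pow_left₀ (by norm_num) ?_ K
    rw [inv_mul_eq_div, le_div_iff₀ (by linarith)]
    linarith
  exact h4.trans (mul_le_mul_of_nonneg_right h3 (pow_nonneg h0.le K))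

theorem bb_zero (ω : ℕ → Bool) (K : ℕ) : bb ω K 0 = 0 := by
  unfold bb
  rw [if_neg Nat.not_prime_zero]

theorem bb_abs (ω : ℕ → Bool) {K : ℕ} (hK : 1 ≤ K) (n : ℕ) : |bb ω K n| ≤ 2 := by
  unfold bb
  split_ifs with hp
  · refine (abs_add_le _ _).trans ?_
    rw [cm_abs, abs_of_nonneg (dd_nn K n)]
    have := dd_le hK hp.two_le
    linarith
  · rw [abs_zero]; norm_num

theorem dp_abs {K : ℕ} (hK : 1 ≤ K) (n : ℕ) : |dp K n| ≤ 2 := by
  unfold dp
  split_ifs with hp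
  · rw [abs_of_nonneg (dd_nn K n)]
    have := dd_le hK hp.two_le
    linarith
  · rw [abs_zero]; norm_num

/-- the sums of the differences -/
theorem bb_sum (ω : ℕ → Bool) {K : ℕ} {C : ℝ}
    (h : ∀ n : ℕ, |∑ k ∈ Finset.range n, (sg ω k - -(Real.log (pr k + 1)) ^ (-((K : ℝ) - 1 / 2)))| ≤
        C * ((n : ℝ) + 1) ^ (1 / 2 + (1 / 4 : ℝ))) (n : ℕ) :
    |∑ m ∈ Finset.Icc 1 n, bb ω K m| ≤ C * ((n : ℝ) + 2) ^ (3 / 4 : ℝ) := by
  have hC : 0 ≤ C := by
    have h0 := h 0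
    simp only [Finset.range_zero, Finset.sum_empty, abs_zero, Nat.cast_zero, zero_add, Real.one_rpow,
      mul_one] at h0
    exact h0
  have h1 := h (Nat.count Nat.Prime (n + 1))
  have h2 : ∑ m ∈ Finset.Icc 1 n, bb ω K m = ∑ k ∈ Finset.range (Nat.count Nat.Prime (n + 1)),
      (sg ω k - -(Real.log (pr k + 1)) ^ (-((K : ℝ) - 1 / 2))) := by
    unfold bb
    rw [sum_primes]
    refine Finset.sum_congr rfl fun k _ => ?_
    have hp : Nat.Prime (pr k) := Nat.prime_nth_prime k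
    rw [cm_prime ω hp]
    unfold dd pr
    rw [Nat.count_nth_of_infinite Nat.infinite_setOfPred_prime]
    ring
  rw [h2]
  refine h1.trans (mul_le_mul_of_nonneg_left ?_ hC)
  have h3 : ((Nat.count Nat.Prime (n + 1) : ℕ) : ℝ) ≤ (n : ℝ) + 1 := by
    have := Nat.count_le (p := Nat.Prime) (n := n + 1)
    exact_mod_cast this
  rw [show (1 / 2 + (1 / 4 : ℝ)) = 3 / 4 by norm_num]
  exact Real.rpow_le_rpow (by positivity) (by linarith) (by norm_num)

/-- the series of the differences are bounded -/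
theorem bb_bdd (ω : ℕ → Bool) {K : ℕ} (hK : 1 ≤ K)
    (h : ∀ ε : ℝ, 0 < ε → ∃ C : ℝ, ∀ n : ℕ,
      |∑ k ∈ Finset.range n, (sg ω k - -(Real.log (pr k + 1)) ^ (-((K : ℝ) - 1 / 2)))| ≤
        C * ((n : ℝ) + 1) ^ (1 / 2 + ε)) (j : ℕ) :
    ∃ M : ℝ, ∀ σ ∈ Ioo (1 : ℝ) 2, |∑' n : ℕ, bb ω K n * W j σ n| ≤ M := by
  obtain ⟨C, hC⟩ := h (1 / 4) (by norm_num)
  have hC0 : 0 ≤ C := by
    have h0 := hC 0
    simp only [Finset.range_zero, Finset.sum_empty, abs_zero, Nat.cast_zero, zero_add, Real.one_rpow,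
      mul_one] at h0
    exact h0
  refine par1 (bb_zero ω K) (bb_abs ω hK) j
    (β := fun n : ℕ => (C * 3 * (j + 2)) * ((1 + Real.log ((n : ℝ) + 2)) ^ j * Real.exp (-(5 / 4 * Real.log n))))
    ((sW j (by norm_num)).mul_left _) (fun n => ?_) fun n hn => ?_
  · have := lg n
    have h3 : 0 ≤ (1 + Real.log ((n : ℝ) + 2)) ^ j := pow_nonneg (by linarith [this.1, this.2.1]) j
    positivity
  · have h1 := bb_sum ω hC n
    have hl := lg n
    have hn1 : (1 : ℝ) ≤ n := by exact_mod_cast hn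
    have h2 : ((n : ℝ) + 2) ^ (3 / 4 : ℝ) ≤ 3 * Real.exp (3 / 4 * Real.log n) := by
      have h3 : ((n : ℝ) + 2) ^ (3 / 4 : ℝ) ≤ (3 * n) ^ (3 / 4 : ℝ) :=
        Real.rpow_le_rpow (by positivity) (by linarith) (by norm_num)
      rw [Real.mul_rpow (by norm_num) (by positivity)] at h3
      have h4 : (3 : ℝ) ^ (3 / 4 : ℝ) ≤ 3 := by
        calc (3 : ℝ) ^ (3 / 4 : ℝ) ≤ (3 : ℝ) ^ (1 : ℝ) :=
              Real.rpow_le_rpow_of_exponent_le (by norm_num) (by norm_num)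
          _ = 3 := Real.rpow_one 3
      have h5 : (n : ℝ) ^ (3 / 4 : ℝ) = Real.exp (3 / 4 * Real.log n) := by
        rw [Real.rpow_def_of_pos (by linarith)]
        congr 1
        ring
      rw [h5] at h3
      exact h3.trans (mul_le_mul_of_nonneg_right h4 (Real.exp_pos _).le)
    have h3 : 0 ≤ (j + 2 : ℝ) * ((1 + Real.log ((n : ℝ) + 2)) ^ j * Real.exp (-(2 * Real.log n))) := by
      have h3 : 0 ≤ (1 + Real.log ((n : ℝ) + 2)) ^ j := pow_nonneg (by linarith [hl.1, hl.2.1]) j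
      positivity
    calc |∑ m ∈ Finset.Icc 1 n, bb ω K m| *
          ((j + 2) * ((1 + Real.log ((n : ℝ) + 2)) ^ j * Real.exp (-(2 * Real.log n))))
        ≤ (C * (3 * Real.exp (3 / 4 * Real.log n))) *
          ((j + 2) * ((1 + Real.log ((n : ℝ) + 2)) ^ j * Real.exp (-(2 * Real.log n)))) :=
          mul_le_mul_of_nonneg_right (h1.trans (mul_le_mul_of_nonneg_left h2 hC0)) h3
      _ = (C * 3 * (j + 2)) * ((1 + Real.log ((n : ℝ) + 2)) ^ j *
          (Real.exp (3 / 4 * Real.log n) * Real.exp (-(2 * Real.log n)))) := by ring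
      _ = _ := by
          rw [← Real.exp_add]
          congr 3
          ring

/-- the coefficients of the Euler product as differences and corrections -/
theorem fp_eq (ω : ℕ → Bool) (K n : ℕ) : fp (F3 ω) n = bb ω K n - dp K n - (if n = 3 then cm ω 3 else 0) := by
  unfold fp bb dp F3
  by_cases hp : n.Prime
  · rw [if_pos hp, if_pos hp, if_pos hp]
    by_cases h3 : n = 3
    · subst h3
      rw [if_pos dvd_rfl, if_pos rfl]
      ring
    · have h4 : ¬ 3 ∣ n := fun h => h3 ((Nat.prime_dvd_prime_iff_eq Nat.prime_three hp).1 h).symm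
      rw [if_neg h4, if_neg h3]
      ring
  · rw [if_neg hp, if_neg hp, if_neg hp]
    have h3 : n ≠ 3 := by
      rintro rfl
      exact hp Nat.prime_three
    rw [if_neg h3]
    ring

theorem fp_series (ω : ℕ → Bool) {K : ℕ} (hK : 1 ≤ K) (j : ℕ) {σ : ℝ} (hσ : 1 < σ) :
    ∑' n : ℕ, fp (F3 ω) n * W j σ n = (∑' n : ℕ, bb ω K n * W j σ n) - (∑' n : ℕ, dp K n * W j σ n) -
      cm ω 3 * W j σ ((3 : ℕ) : ℝ) := by
  have h1 := sbW (bb_abs ω hK) j hσ
  have h2 := sbW (dp_abs hK) j hσ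
  have hd : ∀ n : ℕ, |(if n = 3 then cm ω 3 else 0 : ℝ)| ≤ 2 := by
    intro n
    split_ifs
    · rw [cm_abs]; norm_num
    · rw [abs_zero]; norm_num
  have h3 := sbW hd j hσ
  have h4 : ∑' n : ℕ, (if n = 3 then cm ω 3 else 0 : ℝ) * W j σ n = cm ω 3 * W j σ ((3 : ℕ) : ℝ) := by
    rw [tsum_eq_single 3]
    · rw [if_pos rfl]
    · intro n hn
      rw [if_neg hn, zero_mul]
  rw [← h4, ← h1.tsum_sub h2, ← (h1.sub h2).tsum_sub h3]
  refine tsum_congr fun n => ?_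
  rw [fp_eq ω K n]
  ring

theorem fp_abs (ω : ℕ → Bool) (n : ℕ) : |fp (F3 ω) n| ≤ 2 := by
  unfold fp
  split_ifs
  · exact (F3_abs ω n).trans (by norm_num)
  · rw [abs_zero]; norm_num

/-- a bounded sequence gives an admissible series -/
theorem adm_of {b : ℕ → ℝ} (hb : ∀ n, |b n| ≤ 2) : Adm b (fun n : ℕ => Real.log n) := by
  refine ⟨fun n => lgn n, fun σ hσ => ?_⟩
  refine Summable.of_nonneg_of_le (fun n => by positivity) (fun n => ?_) ((sE hσ).mul_left 2)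
  exact mul_le_mul_of_nonneg_right (hb n) (Real.exp_pos _).le

theorem DS_W (b : ℕ → ℝ) (j : ℕ) (σ : ℝ) :
    DS (fun n : ℕ => b n * Real.log n ^ j) (fun n : ℕ => Real.log n) σ = ∑' n : ℕ, b n * W j σ n := by
  unfold DS W
  refine tsum_congr fun n => ?_
  ring

theorem DS_W0 (b : ℕ → ℝ) (σ : ℝ) :
    DS b (fun n : ℕ => Real.log n) σ = ∑' n : ℕ, b n * W 0 σ n := by
  rw [← DS_W]
  congr 1
  funext n
  rw [pow_zero, mul_one]

theorem W3_abs (j : ℕ) {σ : ℝ} (hσ : 1 < σ) : |W j σ ((3 : ℕ) : ℝ)| ≤ Real.log 3 ^ j := by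
  have h3 : 0 ≤ Real.log 3 := by linarith [log3]
  unfold W
  rw [Nat.cast_ofNat, abs_mul, abs_of_pos (Real.exp_pos _), abs_of_nonneg (pow_nonneg h3 j)]
  refine mul_le_of_le_one_right (pow_nonneg h3 j) ?_
  rw [Real.exp_le_one_iff]
  have := mul_nonneg (by linarith : (0 : ℝ) ≤ σ) h3
  linarith

/-- **The job.** -/
theorem soft : S_SOFT := by
  intro K ω hK hyp
  rintro ⟨C, hC⟩
  -- the product is smooth
  have hG : BB K (DS (hh ω) (fun n : ℕ => Real.log n)) := by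
    refine BB_of_DS K (adm_of (hh_abs ω)) fun j hj => ?_
    have hC' : ∀ Z : ℕ, 2 ≤ Z → |∑ m ∈ Finset.Icc 1 Z, hh ω m * ((Z : ℝ) - m)| ≤
        C * (Z : ℝ) ^ 2 / Real.log Z ^ (K + 2) := by
      intro Z hZ
      have h1 := hC Z hZ
      have e : ((K : ℝ) + 2) = ((K + 2 : ℕ) : ℝ) := by push_cast; ring
      rw [e, Real.rpow_natCast] at h1
      exact h1
    obtain ⟨M, hM⟩ := par2 (hh_zero ω) (hh_abs ω) hj hC'
    refine ⟨M, fun σ hσ => ?_⟩
    rw [DS_W]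
    exact hM σ hσ
  have hr : BB K (fun σ => (r3 ω σ)⁻¹) :=
    (r3_BB ω K).inv (c := 1 / 12) (by norm_num) fun σ hσ => r3_low ω hσ.1
  have hG0 : BB K (fun σ => ∑' n, gt (F3 ω) σ n) := by
    refine (hr.mul hG).congr fun σ hσ => ?_
    have h1 := r3_low ω hσ.1
    have h2 : r3 ω σ ≠ 0 := by
      intro h0
      rw [h0, abs_zero] at h1
      norm_num at h1
    rw [G_eq ω hσ.1, ← mul_assoc, inv_mul_cancel₀ h2, one_mul]
  obtain ⟨hE1, hE2⟩ := E_BB (F3 ω) (F3_abs ω)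
  have hlog : ∀ σ : ℝ, 1 < σ → 0 < ∑' n, gt (F3 ω) σ n ∧ Real.log (∑' n, gt (F3 ω) σ n) =
      -DS (fp (F3 ω)) (fun n : ℕ => Real.log n) σ - DS (cE (F3 ω)) lE σ := fun σ hσ =>
    eulLog (F3 ω) (F3_one ω) (F3_mul ω) (F3_abs ω) hσ
  -- the product is bounded below
  obtain ⟨M0, hM0⟩ := bb_bdd ω hK hyp 0
  obtain ⟨CE, hCE⟩ := (hE2 0).bdd
  have hlow : ∀ σ ∈ Ioo (1 : ℝ) 2, Real.exp (-(M0 + 1) - CE) ≤ ∑' n, gt (F3 ω) σ n := by
    intro σ hσ
    obtain ⟨h1, h2⟩ := hlog σ hσ.1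
    rw [← Real.exp_log h1, Real.exp_le_exp, h2, DS_W0, fp_series ω hK 0 hσ.1]
    have h3 := (le_abs_self _).trans (hM0 σ hσ)
    have h4 := (le_abs_self _).trans (hCE σ hσ)
    have h5 : 0 ≤ ∑' n : ℕ, dp K n * W 0 σ n := by
      refine tsum_nonneg fun n => ?_
      unfold dp W
      split_ifs
      · have := dd_nn K n
        positivity
      · rw [zero_mul]
    have h6 := W3_abs 0 hσ.1
    rw [pow_zero] at h6
    have h7 : |cm ω 3 * W 0 σ ((3 : ℕ) : ℝ)| ≤ 1 := by rw [abs_mul, cm_abs, one_mul]; exact h6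
    have h8 := neg_abs_le (cm ω 3 * W 0 σ ((3 : ℕ) : ℝ))
    linarith
  have hL : BB K (fun σ => Real.log (∑' n, gt (F3 ω) σ n)) := hG0.log (Real.exp_pos _) hlow
  have hΦ : BB K (DS (fp (F3 ω)) (fun n : ℕ => Real.log n)) := by
    refine (hL.neg.add (hE2 K).neg).congr fun σ hσ => ?_
    have h2 := (hlog σ hσ.1).2
    linarith
  obtain ⟨C5, hC5⟩ := DS_of_BB K (adm_of (fp_abs ω)) hΦ
  obtain ⟨M1, hM1⟩ := bb_bdd ω hK hyp K
  -- the sums over the primes are bounded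
  have hP : ∀ σ ∈ Ioo (1 : ℝ) 2, ∀ T : Finset Nat.Primes,
      ∑ p ∈ T, Real.exp (-(σ * Real.log ((p : ℕ) : ℝ))) ≤ 2 ^ K * (M1 + C5 + Real.log 3 ^ K) := by
    intro σ hσ T
    have h1 := hC5 σ hσ
    rw [DS_W, fp_series ω hK K hσ.1] at h1
    have h2 := hM1 σ hσ
    have h3 := W3_abs K hσ.1
    have h4 : |cm ω 3 * W K σ ((3 : ℕ) : ℝ)| ≤ Real.log 3 ^ K := by rw [abs_mul, cm_abs, one_mul]; exact h3
    have h5 : ∑' n : ℕ, dp K n * W K σ n ≤ M1 + C5 + Real.log 3 ^ K := by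
      have a1 := neg_abs_le (cm ω 3 * W K σ ((3 : ℕ) : ℝ))
      have a2 := neg_abs_le ((∑' n : ℕ, bb ω K n * W K σ n) - (∑' n : ℕ, dp K n * W K σ n) -
        cm ω 3 * W K σ ((3 : ℕ) : ℝ))
      have a3 := le_abs_self (∑' n : ℕ, bb ω K n * W K σ n)
      linarith
    have h6 := sbW (dp_abs hK) K hσ.1
    have h7 : ∀ n : ℕ, 0 ≤ dp K n * W K σ n := by
      intro n
      unfold dp W
      split_ifs
      · have := dd_nn K n
        have := lgn n
        positivity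
      · rw [zero_mul]
    have h8 : ∀ p : Nat.Primes, (1 / 2 : ℝ) ^ K * Real.exp (-(σ * Real.log ((p : ℕ) : ℝ))) ≤
        dp K p * W K σ ((p : ℕ) : ℝ) := by
      intro p
      unfold dp W
      rw [if_pos p.2, ← mul_assoc]
      exact mul_le_mul_of_nonneg_right (dd_low p.2.two_le) (Real.exp_pos _).le
    have h9 : ∑ p ∈ T, dp K p * W K σ ((p : ℕ) : ℝ) ≤ ∑' n : ℕ, dp K n * W K σ n := by
      have h10 := h6.sum_le_tsum (T.map ⟨fun p : Nat.Primes => (p : ℕ), Subtype.val_injective⟩) fun n _ => h7 n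
      rw [Finset.sum_map] at h10
      exact h10
    have h10 : (1 / 2 : ℝ) ^ K * ∑ p ∈ T, Real.exp (-(σ * Real.log ((p : ℕ) : ℝ))) ≤ M1 + C5 + Real.log 3 ^ K := by
      rw [Finset.mul_sum]
      exact (Finset.sum_le_sum fun p _ => h8 p).trans (h9.trans h5)
    have h11 : (2 : ℝ) ^ K * ((1 / 2 : ℝ) ^ K * ∑ p ∈ T, Real.exp (-(σ * Real.log ((p : ℕ) : ℝ)))) ≤
        2 ^ K * (M1 + C5 + Real.log 3 ^ K) := mul_le_mul_of_nonneg_left h10 (by positivity)
    rw [← mul_assoc, ← mul_pow] at h11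
    norm_num at h11
    exact h11
  -- the limit
  refine Nat.Primes.not_summable_one_div ?_
  refine summable_of_sum_le (c := 2 ^ K * (M1 + C5 + Real.log 3 ^ K)) (fun p => by positivity) fun T => ?_
  have hlim : Tendsto (fun σ : ℝ => ∑ p ∈ T, Real.exp (-(σ * Real.log ((p : ℕ) : ℝ)))) (𝓝[>] 1)
      (𝓝 (∑ p ∈ T, Real.exp (-(1 * Real.log ((p : ℕ) : ℝ))))) := by
    have hc : Continuous fun σ : ℝ => ∑ p ∈ T, Real.exp (-(σ * Real.log ((p : ℕ) : ℝ))) := by fun_prop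
    exact (hc.tendsto 1).mono_left nhdsWithin_le_nhds
  have hle : ∑ p ∈ T, Real.exp (-(1 * Real.log ((p : ℕ) : ℝ))) ≤ 2 ^ K * (M1 + C5 + Real.log 3 ^ K) := by
    refine le_of_tendsto hlim ?_
    filter_upwards [Ioo_mem_nhdsGT (by norm_num : (1 : ℝ) < 2)] with σ hσ using hP σ hσ T
  refine le_trans (le_of_eq (Finset.sum_congr rfl fun p _ => ?_)) hle
  have hp : (0 : ℝ) < ((p : ℕ) : ℝ) := by exact_mod_cast p.2.pos
  rw [one_mul, Real.exp_neg, Real.exp_log hp, one_div]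


end Pool.Agent.Q153.EP
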